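import Pool.Agent.V8H91.ZO.Bound

/-!
# The dimension of a semisimple module, of its endomorphism ring and of a cyclic module;
# the case of tensor powers
-/

open Finset TensorProduct

namespace Pool.Agent.V8H91.ZO

section general

variable {k : Type*} [Field k] {R : Type*} [Ring R] [Algebra k R]
variable {X : Type*} [AddCommGroup X] [Module k X] [Module R X] [IsScalarTower k R X]
  [Module.Finite k X]

/-- `(dim X) ^ 2 ≤ dim End(X) * dim (R b)` for a basis `b` of `X`, an element of `X ^ n`. -/
theorem sq_finrank_le [IsSemisimpleModule R X] {ι : Type*} [Fintype ι]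
    (b : Module.Basis ι k X) :
    (Module.finrank k X : ℝ) ^ 2 ≤ hd k R X X *
      Module.finrank k (Submodule.span R {(b : ι → X)}) := by
  classical
  obtain ⟨n, S, e, hS⟩ := exists_pi k R X
  set B := Submodule.span R {(b : ι → X)} with hB
  have h1 : ∀ i, Module.finrank k (S i) ≤ hd k R B (S i) := by
    intro i
    let Φ : X → ((ι → X) →ₗ[R] X) := fun y =>
      { toFun := fun z => ∑ j, b.repr y j • z j
        map_add' := fun z z' => by simp only [Pi.add_apply, smul_add, Finset.sum_add_distrib]
        map_smul' := fun r z => by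
          simp only [Pi.smul_apply, RingHom.id_apply, Finset.smul_sum]
          refine Finset.sum_congr rfl fun j _ => ?_
          exact smul_comm _ _ _ }
    have hΦ : ∀ y, Φ y b = y := fun y => b.sum_repr y
    have hm : ∀ (y : S i) (z : B), Φ y z ∈ S i := by
      rintro y ⟨z, hz⟩
      obtain ⟨r, rfl⟩ := Submodule.mem_span_singleton.1 hz
      change Φ y (r • (b : ι → X)) ∈ S i
      rw [(Φ y).map_smul, hΦ]
      exact (S i).smul_mem r y.2
    let F : S i →ₗ[k] (B →ₗ[R] S i) :=
      { toFun := fun y => ((Φ y) ∘ₗ B.subtype).codRestrict (S i) (hm y)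
        map_add' := fun y y' => by
          ext z
          change ∑ j, b.repr ((y : X) + y') j • (z : ι → X) j =
            ∑ j, b.repr (y : X) j • (z : ι → X) j + ∑ j, b.repr (y' : X) j • (z : ι → X) j
          simp only [map_add, Finsupp.add_apply, add_smul, Finset.sum_add_distrib]
        map_smul' := fun c y => by
          ext z
          change ∑ j, b.repr (c • (y : X)) j • (z : ι → X) j =
            c • ∑ j, b.repr (y : X) j • (z : ι → X) j
          simp only [map_smul, Finsupp.smul_apply, smul_eq_mul, Finset.smul_sum, mul_smul] }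
    refine LinearMap.finrank_le_finrank_of_injective (f := F) fun y y' hy => ?_
    apply Subtype.ext
    have h2 := congrArg Subtype.val (LinearMap.congr_fun hy ⟨b, Submodule.mem_span_singleton_self _⟩)
    change Φ y b = Φ y' b at h2
    rwa [hΦ, hΦ] at h2
  have h2 := sum_le' (k := k) (R := R) (fun i => (S i : Type _)) B
  have h3 : Module.finrank k X = ∑ i, Module.finrank k (S i) := by
    rw [finrank_congr_R (k := k) e, Module.finrank_pi_fintype]
  rw [h3, hd_congr e e]
  push_cast
  refine cs_weights (fun i => (S i : Type _)) _ (le_trans ?_ h2)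
  refine Finset.sum_le_sum fun i _ => ?_
  have h4 : (Module.finrank k (S i) : ℝ) ^ 2 /
      (hd k R (S i) (S i) * cnt (fun i => (S i : Type _)) R (S i)) =
      Module.finrank k (S i) * wt k R (fun i => (S i : Type _)) i := by
    unfold wt
    ring
  rw [h4]
  exact mul_le_mul_of_nonneg_right (by exact_mod_cast h1 i) (wt_nonneg _ i)

end general

section cyclic

variable {k : Type*} [Field k] {G : Type*} [Group G]
variable {Y : Type*} [AddCommGroup Y] [Module k Y] [Module.Finite k Y]

/-- The dimension of a cyclic module generated by a basis. -/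
theorem finrank_span_le (τ : Representation k G Y) (U : Submodule k (Y →ₗ[k] Y))
    (hU : ∀ g, τ g ∈ U) {ι : Type*} [Fintype ι] (b : ι → τ.asModule) :
    Module.finrank k (Submodule.span (MonoidAlgebra k G) {b}) ≤ Module.finrank k U := by
  let Ev : (Y →ₗ[k] Y) →ₗ[k] (ι → τ.asModule) :=
    { toFun := fun f i => τ.asModuleEquiv.symm (f (τ.asModuleEquiv (b i)))
      map_add' := fun f f' => by ext i; simp
      map_smul' := fun c f => by ext i; simp }
  have h1 : (Submodule.span (MonoidAlgebra k G) {b}).restrictScalars k ≤ U.map Ev := by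
    rintro z hz
    obtain ⟨r, rfl⟩ := Submodule.mem_span_singleton.1 (show z ∈
      Submodule.span (MonoidAlgebra k G) {b} from hz)
    induction r using MonoidAlgebra.induction_on with
    | of g =>
      refine ⟨τ g, hU g, ?_⟩
      funext i
      change τ.asModuleEquiv.symm (τ g (τ.asModuleEquiv (b i))) = MonoidAlgebra.of k G g • b i
      rw [Representation.asModuleEquiv_symm_map_rho, LinearEquiv.symm_apply_apply]
    | add r s hr hs =>
      rw [add_smul]
      exact Submodule.add_mem _ (hr (Submodule.mem_span_singleton.2 ⟨_, rfl⟩))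
        (hs (Submodule.mem_span_singleton.2 ⟨_, rfl⟩))
    | smul c r hr =>
      rw [smul_assoc]
      exact Submodule.smul_mem _ _ (hr (Submodule.mem_span_singleton.2 ⟨_, rfl⟩))
  have h2 : Module.finrank k ((Submodule.span (MonoidAlgebra k G) {b}).restrictScalars k) ≤
      Module.finrank k (U.map Ev) := Submodule.finrank_mono h1
  exact (le_of_eq rfl).trans (h2.trans (Submodule.finrank_map_le Ev U))

end cyclic

section tensorPower

variable {k : Type*} [Field k] {V : Type*} [AddCommGroup V] [Module k V] [Module.Finite k V]

/-- The `m`-th tensor powers of endomorphisms are in a space of polynomial dimension. -/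
theorem exists_powers (k : Type*) [Field k] (V : Type*) [AddCommGroup V] [Module k V]
    [Module.Finite k V] (m : ℕ) :
    ∃ U : Submodule k ((⨂[k]^m V) →ₗ[k] (⨂[k]^m V)),
      (∀ f : V →ₗ[k] V, PiTensorProduct.map (fun _ : Fin m => f) ∈ U) ∧
      Module.finrank k U ≤ (m + 1) ^ (Module.finrank k V) ^ 2 := by
  classical
  let J := Fin (Module.finrank k (V →ₗ[k] V))
  let b : Module.Basis J k (V →ₗ[k] V) := Module.finBasis k (V →ₗ[k] V)
  let cn : (Fin m → J) → (J → Fin (m + 1)) := fun s j =>
    ⟨(univ.filter fun l => s l = j).card, by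
      have := card_filter_le (univ : Finset (Fin m)) (fun l => s l = j)
      rw [card_univ, Fintype.card_fin] at this
      omega⟩
  let E : (J → Fin (m + 1)) → ((⨂[k]^m V) →ₗ[k] (⨂[k]^m V)) := fun α =>
    ∑ s ∈ univ.filter (fun s => cn s = α), PiTensorProduct.map fun l : Fin m => b (s l)
  refine ⟨Submodule.span k (Set.range E), fun f => ?_, ?_⟩
  · have h1 : PiTensorProduct.map (fun _ : Fin m => f) =
        ∑ s : Fin m → J, (∏ l, b.repr f (s l)) • PiTensorProduct.map fun l : Fin m => b (s l) := by
      have h2 : (fun _ : Fin m => f) = fun _ : Fin m => ∑ j, b.repr f j • b j := by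
        funext l
        exact (b.sum_repr f).symm
      rw [h2]
      have h3 := (PiTensorProduct.mapMultilinear k (fun _ : Fin m => V) (fun _ : Fin m => V)).map_sum
        (fun (_ : Fin m) (j : J) => b.repr f j • b j)
      rw [PiTensorProduct.mapMultilinear_apply] at h3
      rw [h3]
      refine Finset.sum_congr rfl fun s _ => ?_
      rw [MultilinearMap.map_smul_univ]
      rfl
    have h4 : ∀ s : Fin m → J, ∏ l, b.repr f (s l) = ∏ j, b.repr f j ^ (cn s j : ℕ) := by
      intro s
      rw [← Finset.prod_fiberwise' (univ : Finset (Fin m)) s (fun j => b.repr f j)]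
      refine Finset.prod_congr rfl fun j _ => ?_
      rw [Finset.prod_const]
    have h5 : PiTensorProduct.map (fun _ : Fin m => f) =
        ∑ α, (∏ j, b.repr f j ^ (α j : ℕ)) • E α := by
      rw [h1, ← Finset.sum_fiberwise (univ : Finset (Fin m → J)) cn]
      refine Finset.sum_congr rfl fun α _ => ?_
      rw [Finset.smul_sum]
      refine Finset.sum_congr rfl fun s hs => ?_
      rw [h4, (Finset.mem_filter.1 hs).2]
    rw [h5]
    exact Submodule.sum_mem _ fun α _ => Submodule.smul_mem _ _ (Submodule.subset_span ⟨α, rfl⟩)
  · refine (finrank_range_le_card E).trans (le_of_eq ?_)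
    rw [Fintype.card_fun, Fintype.card_fin, Fintype.card_fin, Module.finrank_linearMap, pow_two]

theorem finrank_tensorPower (k : Type*) [Field k] (V : Type*) [AddCommGroup V] [Module k V]
    [Module.Finite k V] (m : ℕ) : Module.finrank k (⨂[k]^m V) = Module.finrank k V ^ m := by
  have b := Basis.piTensorProduct (R := k) fun _ : Fin m => Module.finBasis k V
  rw [Module.finrank_eq_card_basis b]
  simp

end tensorPower

end Pool.Agent.V8H91.ZO
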