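import Pool.Agent.V8H91.ZO.Iso

/-!
# The bound for the space of equivariant maps to an endomorphism algebra
-/

open Finset TensorProduct

namespace Pool.Agent.V8H91.ZO

variable {k : Type*} [Field k] {G : Type*} [Group G]

section finrank

variable {A : Type*} [AddCommGroup A] [Module k A] {B : Type*} [AddCommGroup B] [Module k B]

theorem finrank_TP : Module.finrank k (TP k G A B) = Module.finrank k A * Module.finrank k B :=
  (Module.finrank_tensorProduct (R := k) (M := A) (M' := B))

theorem finrank_HM [Module.Finite k A] :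
    Module.finrank k (HM k G A B) = Module.finrank k A * Module.finrank k B :=
  (Module.finrank_linearMap k k A B)

end finrank

section schur

variable {Q : Type*} [AddCommGroup Q] [Module k Q] [Module (MonoidAlgebra k G) Q]
  [IsScalarTower k (MonoidAlgebra k G) Q] [Module.Finite k Q]
variable {X : Type*} [AddCommGroup X] [Module k X] [Module (MonoidAlgebra k G) X]
  [IsScalarTower k (MonoidAlgebra k G) X] [Module.Finite k X]

/-- The bound for the number of equivariant bilinear maps `Q × X → X`. -/
theorem bil_le [IsSemisimpleModule (MonoidAlgebra k G) X]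
    (h1 : ∀ S : Submodule (MonoidAlgebra k G) X, IsSemisimpleModule (MonoidAlgebra k G)
      (TP k G Q S))
    (h2 : ∀ S : Submodule (MonoidAlgebra k G) X, IsSemisimpleModule (MonoidAlgebra k G)
      (HM k G Q S)) :
    (Module.finrank k (Bil k G Q X X) : ℝ) ≤
      Module.finrank k Q * hd k (MonoidAlgebra k G) X X := by
  classical
  obtain ⟨n, S, e, hS⟩ := exists_pi k (MonoidAlgebra k G) X
  have e1 : Module.finrank k (Bil k G Q X X) =
      ∑ i, ∑ j, hd k (MonoidAlgebra k G) (TP k G Q (S i)) (S j) := by
    rw [← hd_HM', hd_congr e (LinearEquiv.refl _ _), hd_pi_left]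
    refine Finset.sum_congr rfl fun i _ => ?_
    rw [hd_HM', ← hd_TP, hd_congr (LinearEquiv.refl _ _) e, hd_pi_right]
  have e2 : hd k (MonoidAlgebra k G) X X =
      hd k (MonoidAlgebra k G) (∀ i, S i) (∀ i, S i) := hd_congr e e
  rw [e1, e2]
  push_cast
  refine schur_test (k := k) (R := MonoidAlgebra k G) (fun i => (S i : Type _))
    (D := (Module.finrank k Q : ℝ))
    (fun i j => (hd k (MonoidAlgebra k G) (TP k G Q (S i)) (S j) : ℝ))
    (fun i j => Nat.cast_nonneg _) (fun i => ?_) (fun j => ?_)
  · have := h1 (S i)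
    have h3 := sum_le' (k := k) (R := MonoidAlgebra k G) (fun j => (S j : Type _))
      (TP k G Q (S i))
    refine h3.trans (le_of_eq ?_)
    rw [finrank_TP]
    push_cast
    rfl
  · have := h2 (S j)
    have h3 := sum_le (k := k) (R := MonoidAlgebra k G) (fun j => (S j : Type _))
      (HM k G Q (S j))
    have h4 : ∀ i, hd k (MonoidAlgebra k G) (TP k G Q (S i)) (S j) =
        hd k (MonoidAlgebra k G) (S i) (HM k G Q (S j)) := fun i => hd_TP_eq_hd_HM
    simp only [h4]
    refine h3.trans (le_of_eq ?_)
    rw [finrank_HM]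
    push_cast
    rfl

/-- The bound for quotients of a module `Z`. -/
theorem bil_le_of_surjective [IsSemisimpleModule (MonoidAlgebra k G) X]
    {Z : Type*} [AddCommGroup Z] [Module k Z] [Module (MonoidAlgebra k G) Z]
    [IsScalarTower k (MonoidAlgebra k G) Z]
    (hT : IsSemisimpleModule (MonoidAlgebra k G) (TP k G Z X))
    (hH : IsSemisimpleModule (MonoidAlgebra k G) (HM k G Z X))
    (π : Z →ₗ[MonoidAlgebra k G] Q) (hπ : Function.Surjective π) :
    (Module.finrank k (Bil k G Q X X) : ℝ) ≤
      Module.finrank k Q * hd k (MonoidAlgebra k G) X X := by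
  refine bil_le (fun S => ?_) fun S => ?_
  · have h1 : IsSemisimpleModule (MonoidAlgebra k G) (TP k G Z S) :=
      IsSemisimpleModule.of_injective (mapTP LinearMap.id S.subtype)
        (mapTP_injective _ _ Function.injective_id Subtype.val_injective)
    exact IsSemisimpleModule.of_surjective (mapTP π LinearMap.id)
      (mapTP_surjective _ _ hπ Function.surjective_id)
  · exact IsSemisimpleModule.of_injective (mapHM π S.subtype)
      (mapHM_injective _ _ hπ Subtype.val_injective)

end schur

section powers

variable {W : Type*} [AddCommGroup W] [Module k W] [Module (MonoidAlgebra k G) W]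
  [IsScalarTower k (MonoidAlgebra k G) W]
variable {X : Type*} [AddCommGroup X] [Module k X] [Module (MonoidAlgebra k G) X]
  [IsScalarTower k (MonoidAlgebra k G) X]

theorem semisimple_TP_pi (r : ℕ) (h : IsSemisimpleModule (MonoidAlgebra k G) (TP k G W X)) :
    IsSemisimpleModule (MonoidAlgebra k G) (TP k G (Fin r → W) X) := by
  let F : (Fin r → TP k G W X) →ₗ[MonoidAlgebra k G] TP k G (Fin r → W) X :=
    ∑ i, (mapTP (LinearMap.single (MonoidAlgebra k G) (fun _ : Fin r => W) i)
      LinearMap.id) ∘ₗ LinearMap.proj i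
  refine IsSemisimpleModule.of_surjective F fun z => ?_
  induction z using TP.ind with
  | h0 => exact ⟨0, map_zero _⟩
  | h2 x y hx hy =>
    obtain ⟨a, rfl⟩ := hx
    obtain ⟨b, rfl⟩ := hy
    exact ⟨a + b, map_add _ _ _⟩
  | h1 z x =>
    refine ⟨fun i => (tpE k G W X).symm (z i ⊗ₜ x), ?_⟩
    simp only [F, LinearMap.sum_apply, LinearMap.comp_apply, LinearMap.proj_apply]
    have h3 : ∀ i, mapTP (LinearMap.single (MonoidAlgebra k G) (fun _ : Fin r => W) i)
        LinearMap.id ((tpE k G W X).symm (z i ⊗ₜ x)) =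
        (tpE k G (Fin r → W) X).symm (Pi.single i (z i) ⊗ₜ x) := by
      intro i
      change (tpE k G (Fin r → W) X).symm (TensorProduct.map _ _ ((tpE k G W X)
        ((tpE k G W X).symm (z i ⊗ₜ x)))) = _
      rw [LinearEquiv.apply_symm_apply, TensorProduct.map_tmul]
      rfl
    rw [Finset.sum_congr rfl fun i _ => h3 i, ← map_sum, ← TensorProduct.sum_tmul]
    congr 2
    exact Finset.univ_sum_single z

theorem semisimple_HM_pi (r : ℕ) (h : IsSemisimpleModule (MonoidAlgebra k G) (HM k G W X)) :
    IsSemisimpleModule (MonoidAlgebra k G) (HM k G (Fin r → W) X) := by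
  let F : HM k G (Fin r → W) X →ₗ[MonoidAlgebra k G] (Fin r → HM k G W X) :=
    LinearMap.pi fun i => mapHM (LinearMap.single (MonoidAlgebra k G) (fun _ : Fin r => W) i)
      LinearMap.id
  refine IsSemisimpleModule.of_injective F fun x y hxy => ?_
  apply (hmE k G (Fin r → W) X).injective
  refine LinearMap.pi_ext fun i w => ?_
  have h1 := congrFun hxy i
  have h2 : mapHM (LinearMap.single (MonoidAlgebra k G) (fun _ : Fin r => W) i)
      LinearMap.id x = mapHM (LinearMap.single (MonoidAlgebra k G) (fun _ : Fin r => W) i)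
      (LinearMap.id (M := X)) y := h1
  have h3 := congrArg (fun z => hmE k G W X z w) h2
  simp only [hmE_mapHM] at h3
  exact h3

end powers

section hd_endo

variable {X : Type*} [AddCommGroup X] [Module k X] [Module (MonoidAlgebra k G) X]
  [IsScalarTower k (MonoidAlgebra k G) X] [Module.Finite k X]
variable {Y : Type*} [AddCommGroup Y] [Module k Y] [Module (MonoidAlgebra k G) Y]
  [IsScalarTower k (MonoidAlgebra k G) Y] [Module.Finite k Y]

theorem semisimple_TP_HM (h : IsSemisimpleModule (MonoidAlgebra k G) (HM k G X (TP k G X Y))) :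
    IsSemisimpleModule (MonoidAlgebra k G) (TP k G (HM k G X X) Y) :=
  IsSemisimpleModule.congr (isoT k G X X Y)

theorem semisimple_HM_HM (h : IsSemisimpleModule (MonoidAlgebra k G) (HM k G X (TP k G X Y))) :
    IsSemisimpleModule (MonoidAlgebra k G) (HM k G (HM k G X X) Y) :=
  IsSemisimpleModule.congr ((isoE k G X X Y).symm.trans (isoL k G X X Y))

theorem hd_HM_HM : hd k (MonoidAlgebra k G) (HM k G X X) (HM k G Y Y) =
    hd k (MonoidAlgebra k G) (TP k G X Y) (TP k G X Y) := by
  rw [hd_HM, ← hd_HM', hd_congr (LinearEquiv.refl _ _) ((isoE k G X X Y).symm.trans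
    (isoL k G X X Y)), hd_HM', ← hd_TP]

theorem hd_HM_self : hd k (MonoidAlgebra k G) (HM k G X Y) (HM k G X Y) =
    hd k (MonoidAlgebra k G) (TP k G X Y) (TP k G X Y) := by
  rw [hd_HM, ← hd_HM', hd_congr (LinearEquiv.refl _ _) ((isoE k G X Y Y).symm.trans
    (isoL k G X Y Y)), hd_HM, ← hd_TP]

end hd_endo

section main

variable {X : Type*} [AddCommGroup X] [Module k X] [Module (MonoidAlgebra k G) X]
  [IsScalarTower k (MonoidAlgebra k G) X] [Module.Finite k X]
variable {Y : Type*} [AddCommGroup Y] [Module k Y] [Module (MonoidAlgebra k G) Y]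
  [IsScalarTower k (MonoidAlgebra k G) Y] [Module.Finite k Y]

/-- The main inequality. For elements `w i` of `End(X)` which generate a submodule of dimension
`d` of `End(X) ^ r`, the values of the equivariant maps `End(X) ^ r → End(Y)` at `w` are a space of
dimension at least `r hd(X ⊗ Y, X ⊗ Y) - (r (dim X) ^ 2 - d) hd(Y, Y)`. -/
theorem main_ineq [IsSemisimpleModule (MonoidAlgebra k G) Y]
    (h : IsSemisimpleModule (MonoidAlgebra k G) (HM k G X (TP k G X Y)))
    {r : ℕ} (w : Fin r → HM k G X X) (T : Submodule k (HM k G Y Y))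
    (hT : ∀ φ : (Fin r → HM k G X X) →ₗ[MonoidAlgebra k G] HM k G Y Y, φ w ∈ T) :
    (r : ℝ) * hd k (MonoidAlgebra k G) (TP k G X Y) (TP k G X Y) -
      (r * (Module.finrank k X) ^ 2 -
        Module.finrank k (Submodule.span (MonoidAlgebra k G) {w})) *
        hd k (MonoidAlgebra k G) Y Y ≤ Module.finrank k T := by
  set M := Submodule.span (MonoidAlgebra k G) {w} with hM
  let ev : ((Fin r → HM k G X X) →ₗ[MonoidAlgebra k G] HM k G Y Y) →ₗ[k] HM k G Y Y :=
    { toFun := fun φ => φ w
      map_add' := fun φ ψ => rfl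
      map_smul' := fun c φ => rfl }
  have h1 := LinearMap.finrank_range_add_finrank_ker ev
  have h2 : Module.finrank k (LinearMap.range ev) ≤ Module.finrank k T := by
    refine Submodule.finrank_mono ?_
    rintro _ ⟨φ, rfl⟩
    exact hT φ
  let L : LinearMap.ker ev →ₗ[k] ((Fin r → HM k G X X) ⧸ M) →ₗ[MonoidAlgebra k G] HM k G Y Y :=
    { toFun := fun φ => M.liftQ φ.1 (by
        rw [hM, Submodule.span_le, Set.singleton_subset_iff]
        exact φ.2)
      map_add' := fun φ ψ => by
        apply LinearMap.ext
        intro x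
        obtain ⟨y, rfl⟩ := M.mkQ_surjective x
        rfl
      map_smul' := fun c φ => by
        apply LinearMap.ext
        intro x
        obtain ⟨y, rfl⟩ := M.mkQ_surjective x
        rfl }
  have h3 : Module.finrank k (LinearMap.ker ev) ≤
      hd k (MonoidAlgebra k G) ((Fin r → HM k G X X) ⧸ M) (HM k G Y Y) := by
    refine LinearMap.finrank_le_finrank_of_injective (f := L) fun φ ψ hφ => ?_
    apply Subtype.ext
    apply LinearMap.ext
    intro x
    exact LinearMap.congr_fun hφ (M.mkQ x)
  have h4 : hd k (MonoidAlgebra k G) (Fin r → HM k G X X) (HM k G Y Y) =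
      r * hd k (MonoidAlgebra k G) (TP k G X Y) (TP k G X Y) := by
    rw [hd_pi_left]
    simp only [hd_HM_HM, Finset.sum_const, Finset.card_univ, Fintype.card_fin, smul_eq_mul]
  have h5 := bil_le_of_surjective (Q := (Fin r → HM k G X X) ⧸ M) (X := Y)
    (semisimple_TP_pi r (semisimple_TP_HM h)) (semisimple_HM_pi r (semisimple_HM_HM h))
    M.mkQ M.mkQ_surjective
  rw [← hd_HM] at h5
  have h6 : Module.finrank k ((Fin r → HM k G X X) ⧸ M) + Module.finrank k M =
      r * (Module.finrank k X) ^ 2 := by
    have h7 := Submodule.finrank_quotient_add_finrank (M.restrictScalars k)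
    have h8 : Module.finrank k (Fin r → HM k G X X) = r * (Module.finrank k X) ^ 2 := by
      rw [Module.finrank_pi_fintype]
      simp only [finrank_HM, Finset.sum_const, Finset.card_univ, Fintype.card_fin, smul_eq_mul]
      ring
    rw [← h8, ← h7]
    rfl
  have h6' : (Module.finrank k ((Fin r → HM k G X X) ⧸ M) : ℝ) =
      r * (Module.finrank k X) ^ 2 - Module.finrank k M := by
    rw [eq_sub_iff_add_eq]
    exact_mod_cast h6
  have h9 : (Module.finrank k (LinearMap.range ev) : ℝ) + Module.finrank k (LinearMap.ker ev) =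
      r * hd k (MonoidAlgebra k G) (TP k G X Y) (TP k G X Y) := by
    have h10 : Module.finrank k (LinearMap.range ev) + Module.finrank k (LinearMap.ker ev) =
      r * hd k (MonoidAlgebra k G) (TP k G X Y) (TP k G X Y) := by rw [h1, ← h4]; rfl
    exact_mod_cast h10
  have h2' : (Module.finrank k (LinearMap.range ev) : ℝ) ≤ Module.finrank k T := by
    exact_mod_cast h2
  have h3' : (Module.finrank k (LinearMap.ker ev) : ℝ) ≤
      hd k (MonoidAlgebra k G) ((Fin r → HM k G X X) ⧸ M) (HM k G Y Y) := by exact_mod_cast h3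
  rw [← h6']
  linarith

end main

end Pool.Agent.V8H91.ZO
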