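import Mathlib

/-!
# Logarithmic growth
-/

open Filter Topology

namespace Pool.Agent.V8H91.ZO

theorem log_sq_small (A B : ℝ) :
    ∀ᶠ m : ℕ in atTop, A * Real.log (m + 1) * (|B| + |A| * Real.log (m + 1)) ≤
      (1 / 2) * Real.sqrt m := by
  have h1 : (fun x : ℝ => Real.log x) =o[atTop] fun x => x ^ (1 / 8 : ℝ) :=
    isLittleO_log_rpow_atTop (by norm_num)
  have h2 := h1.def (c := 1) one_pos
  have h3 : ∀ᶠ m : ℕ in atTop, Real.log ((m : ℝ) + 1) ≤ ((m : ℝ) + 1) ^ (1 / 8 : ℝ) := by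
    have h4 : Tendsto (fun m : ℕ => (m : ℝ) + 1) atTop atTop :=
      tendsto_atTop_add_const_right _ _ tendsto_natCast_atTop_atTop
    filter_upwards [h4.eventually h2] with m hm
    rw [one_mul, Real.norm_eq_abs, Real.norm_eq_abs, abs_of_nonneg (a := ((m : ℝ) + 1) ^ (1 / 8 : ℝ))
      (by positivity)] at hm
    exact (le_abs_self _).trans hm
  have h5 : Tendsto (fun m : ℕ => (m : ℝ) ^ (1 / 4 : ℝ)) atTop atTop :=
    (tendsto_rpow_atTop (by norm_num)).comp tendsto_natCast_atTop_atTop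
  have h6 := h5.eventually (eventually_ge_atTop (4 * (|A| * (|B| + |A|))))
  filter_upwards [h3, h6, eventually_ge_atTop 1] with m hm hm6 hm1
  have hm1' : (1 : ℝ) ≤ m := by exact_mod_cast hm1
  have hlog : 0 ≤ Real.log ((m : ℝ) + 1) := Real.log_nonneg (by linarith)
  set L := ((m : ℝ) + 1) ^ (1 / 8 : ℝ) with hL
  have hL1 : 1 ≤ L := Real.one_le_rpow (by linarith) (by norm_num)
  have e1 : A * Real.log (m + 1) * (|B| + |A| * Real.log (m + 1)) ≤
      |A| * L * (|B| * L + |A| * L) := by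
    have a1 : A * Real.log (m + 1) ≤ |A| * L := by
      calc A * Real.log (m + 1) ≤ |A| * Real.log (m + 1) :=
            mul_le_mul_of_nonneg_right (le_abs_self A) hlog
        _ ≤ |A| * L := mul_le_mul_of_nonneg_left hm (abs_nonneg A)
    have a2 : |B| + |A| * Real.log (m + 1) ≤ |B| * L + |A| * L := by
      have := mul_le_mul_of_nonneg_left hm (abs_nonneg A)
      have h7 : |B| * 1 ≤ |B| * L := mul_le_mul_of_nonneg_left hL1 (abs_nonneg B)
      linarith
    have a3 : 0 ≤ |B| + |A| * Real.log (m + 1) := by positivity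
    exact (mul_le_mul_of_nonneg_right a1 a3).trans (mul_le_mul_of_nonneg_left a2 (by positivity))
  have e2 : |A| * L * (|B| * L + |A| * L) = (|A| * (|B| + |A|)) * L ^ 2 := by ring
  have e3 : L ^ 2 = ((m : ℝ) + 1) ^ (1 / 4 : ℝ) := by
    rw [hL, ← Real.rpow_natCast, ← Real.rpow_mul (by linarith)]
    norm_num
  have e4 : ((m : ℝ) + 1) ^ (1 / 4 : ℝ) ≤ 2 * (m : ℝ) ^ (1 / 4 : ℝ) := by
    calc ((m : ℝ) + 1) ^ (1 / 4 : ℝ) ≤ (2 * (m : ℝ)) ^ (1 / 4 : ℝ) :=
          Real.rpow_le_rpow (by linarith) (by linarith) (by norm_num)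
      _ = 2 ^ (1 / 4 : ℝ) * (m : ℝ) ^ (1 / 4 : ℝ) := Real.mul_rpow (by norm_num) (by linarith)
      _ ≤ 2 * (m : ℝ) ^ (1 / 4 : ℝ) := by
          refine mul_le_mul_of_nonneg_right ?_ (by positivity)
          calc (2 : ℝ) ^ (1 / 4 : ℝ) ≤ 2 ^ (1 : ℝ) :=
                Real.rpow_le_rpow_of_exponent_le (by norm_num) (by norm_num)
            _ = 2 := Real.rpow_one 2
  have e5 : Real.sqrt m = (m : ℝ) ^ (1 / 4 : ℝ) * (m : ℝ) ^ (1 / 4 : ℝ) := by
    rw [Real.sqrt_eq_rpow, ← Real.rpow_add (by linarith)]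
    norm_num
  have hq : 0 ≤ (m : ℝ) ^ (1 / 4 : ℝ) := by positivity
  calc A * Real.log (m + 1) * (|B| + |A| * Real.log (m + 1))
      ≤ (|A| * (|B| + |A|)) * L ^ 2 := by rw [← e2]; exact e1
    _ ≤ (|A| * (|B| + |A|)) * (2 * (m : ℝ) ^ (1 / 4 : ℝ)) := by
        rw [e3]
        exact mul_le_mul_of_nonneg_left e4 (by positivity)
    _ = (1 / 2) * ((4 * (|A| * (|B| + |A|))) * (m : ℝ) ^ (1 / 4 : ℝ)) := by ring
    _ ≤ (1 / 2) * ((m : ℝ) ^ (1 / 4 : ℝ) * (m : ℝ) ^ (1 / 4 : ℝ)) := by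
        refine mul_le_mul_of_nonneg_left (mul_le_mul_of_nonneg_right hm6 hq) (by norm_num)
    _ = (1 / 2) * Real.sqrt m := by rw [e5]

/-- Logarithmic growth of `t m / a m`. -/
theorem log_growth {a t : ℕ → ℝ} {D : ℝ} (hD : 1 < D) (h0 : ∀ m, 0 < a m)
    (h1 : ∀ m, a (m + 1) ^ 2 ≤ a m * a (m + 2)) (h2 : ∀ m, a (m + 1) ≤ D * a m)
    {P : ℕ} (h3 : ∀ m : ℕ, D ^ m ≤ a m * ((m : ℝ) + 1) ^ P) {K₀ : ℕ} (hK : 0 < K₀)
    (ht : ∀ N m : ℕ, ((N : ℝ) + 1) * a (m + N * K₀) -
      (((N : ℝ) + 1) * D ^ (N * K₀) - (N + 1)) * a m ≤ t m) :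
    ∃ c : ℝ, 0 < c ∧ ∀ᶠ m : ℕ in atTop, c * Real.log m * a m ≤ t m := by
  have hD0 : 0 < D := by linarith
  have hlD : 0 < Real.log D := Real.log_pos hD
  set q : ℕ → ℝ := fun m => a (m + 1) / a m with hq
  have hq0 : ∀ m, 0 < q m := fun m => div_pos (h0 _) (h0 _)
  have hqa : ∀ m, a (m + 1) = q m * a m := fun m => by
    rw [hq]; simp only; rw [div_mul_cancel₀ _ (h0 m).ne']
  have hmono : Monotone q := by
    refine monotone_nat_of_le_succ fun m => ?_
    rw [hq]
    simp only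
    rw [div_le_div_iff₀ (h0 m) (h0 (m + 1))]
    nlinarith [h1 m]
  have hle : ∀ m, q m ≤ D := fun m => by
    rw [hq]
    simp only
    rw [div_le_iff₀ (h0 m)]
    exact h2 m
  have hup : ∀ m, a m ≤ a 0 * q m ^ m := by
    intro m
    have h4 : ∀ j ≤ m, a j ≤ a 0 * q m ^ j := by
      intro j
      induction j with
      | zero => intro _; simp
      | succ j ih =>
        intro hj
        have h5 := ih (by omega)
        calc a (j + 1) = q j * a j := hqa j
          _ ≤ q m * (a 0 * q m ^ j) := mul_le_mul (hmono (by omega)) h5 (h0 j).le (hq0 m).le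
          _ = a 0 * q m ^ (j + 1) := by ring
    exact h4 m le_rfl
  have hlow : ∀ m K, q m ^ K * a m ≤ a (m + K) := by
    intro m K
    induction K with
    | zero => simp
    | succ K ih =>
      calc q m ^ (K + 1) * a m = q m * (q m ^ K * a m) := by ring
        _ ≤ q (m + K) * a (m + K) := mul_le_mul (hmono (by omega)) ih
            (mul_nonneg (pow_nonneg (hq0 m).le _) (h0 m).le) (hq0 _).le
        _ = a (m + (K + 1)) := (hqa (m + K)).symm
  -- the defect
  have hdef : ∀ m : ℕ, 1 ≤ m → ∀ K : ℕ, D ^ K - q m ^ K ≤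
      D ^ K * (K * (|Real.log (a 0)| + P * Real.log (m + 1)) / m) := by
    intro m hm K
    have hm' : (0 : ℝ) < m := by exact_mod_cast hm
    set x := q m / D with hx
    have hx0 : 0 < x := div_pos (hq0 m) hD0
    have hx1 : x ≤ 1 := (div_le_one hD0).2 (hle m)
    have hxq : q m = D * x := by rw [hx]; field_simp
    have e1 : (1 : ℝ) ≤ a 0 * x ^ m * ((m : ℝ) + 1) ^ P := by
      have h6 : D ^ m ≤ (a 0 * q m ^ m) * ((m : ℝ) + 1) ^ P :=
        (h3 m).trans (mul_le_mul_of_nonneg_right (hup m) (by positivity))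
      rw [hxq, mul_pow] at h6
      have h7 : D ^ m * 1 ≤ D ^ m * (a 0 * x ^ m * ((m : ℝ) + 1) ^ P) := by
        calc D ^ m * 1 = D ^ m := mul_one _
          _ ≤ (a 0 * (D ^ m * x ^ m)) * ((m : ℝ) + 1) ^ P := h6
          _ = D ^ m * (a 0 * x ^ m * ((m : ℝ) + 1) ^ P) := by ring
      exact le_of_mul_le_mul_left h7 (pow_pos hD0 m)
    have e2 : 0 ≤ Real.log (a 0) + m * Real.log x + P * Real.log (m + 1) := by
      have h8 := Real.log_nonneg e1
      rw [Real.log_mul (by have := h0 0; positivity) (by positivity),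
        Real.log_mul (h0 0).ne' (by positivity), Real.log_pow, Real.log_pow] at h8
      exact h8
    have e3 : 1 - x ≤ (|Real.log (a 0)| + P * Real.log (m + 1)) / m := by
      have h9 : Real.log x ≤ x - 1 := Real.log_le_sub_one_of_pos hx0
      rw [le_div_iff₀ hm']
      have h10 := le_abs_self (Real.log (a 0))
      nlinarith
    have e4 : 1 - x ^ K ≤ K * (1 - x) := by
      have h11 := one_add_mul_le_pow (a := x - 1) (by linarith) K
      have h12 : (1 + (x - 1)) = x := by ring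
      rw [h12] at h11
      linarith
    have e5 : D ^ K - q m ^ K = D ^ K * (1 - x ^ K) := by rw [hxq, mul_pow]; ring
    rw [e5]
    refine mul_le_mul_of_nonneg_left (e4.trans ?_) (pow_nonneg hD0.le K)
    rw [mul_div_assoc]
    exact mul_le_mul_of_nonneg_left e3 (by positivity)
  set c₁ : ℝ := 1 / (2 * K₀ * Real.log D) with hc₁
  have hK0 : (0 : ℝ) < K₀ := by exact_mod_cast hK
  have hc₁0 : 0 < c₁ := by positivity
  refine ⟨c₁ / 2, by positivity, ?_⟩
  have hsm := log_sq_small (c₁ * K₀ + P) (Real.log (a 0))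
  filter_upwards [hsm, eventually_ge_atTop 1] with m hm hm1
  have hm1' : (1 : ℝ) ≤ m := by exact_mod_cast hm1
  have hm0 : (0 : ℝ) < m := by linarith
  have hlm : 0 ≤ Real.log m := Real.log_nonneg hm1'
  have hlm1 : Real.log m ≤ Real.log (m + 1) := Real.log_le_log hm0 (by linarith)
  set N := ⌊c₁ * Real.log m⌋₊ with hN
  have hN1 : (N : ℝ) ≤ c₁ * Real.log m := Nat.floor_le (by positivity)
  have hN2 : c₁ * Real.log m < N + 1 := Nat.lt_floor_add_one _
  have hDK : D ^ (N * K₀) ≤ Real.sqrt m := by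
    have h13 : D ^ (N * K₀) = Real.exp (((N * K₀ : ℕ) : ℝ) * Real.log D) := by
      rw [Real.exp_nat_mul, Real.exp_log hD0]
    have h14 : Real.sqrt m = Real.exp (Real.log m / 2) := by
      rw [Real.sqrt_eq_rpow, Real.rpow_def_of_pos hm0]
      congr 1
      ring
    rw [h13, h14, Real.exp_le_exp]
    push_cast
    calc (N : ℝ) * K₀ * Real.log D ≤ (c₁ * Real.log m) * K₀ * Real.log D := by
          refine mul_le_mul_of_nonneg_right (mul_le_mul_of_nonneg_right hN1 hK0.le) hlD.le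
      _ = Real.log m / 2 := by rw [hc₁]; field_simp
  have herr : D ^ (N * K₀) - q m ^ (N * K₀) ≤ 1 / 2 := by
    have h15 := hdef m hm1 (N * K₀)
    refine h15.trans ?_
    have hs0 : 0 < Real.sqrt m := Real.sqrt_pos.2 hm0
    have h16 : ((N * K₀ : ℕ) : ℝ) ≤ (c₁ * K₀ + P) * Real.log (m + 1) := by
      push_cast
      have h17 : (N : ℝ) * K₀ ≤ c₁ * K₀ * Real.log (m + 1) := by
        calc (N : ℝ) * K₀ ≤ (c₁ * Real.log m) * K₀ := mul_le_mul_of_nonneg_right hN1 hK0.le
          _ ≤ (c₁ * Real.log (m + 1)) * K₀ := mul_le_mul_of_nonneg_right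
              (mul_le_mul_of_nonneg_left hlm1 hc₁0.le) hK0.le
          _ = c₁ * K₀ * Real.log (m + 1) := by ring
      have h18 : 0 ≤ (P : ℝ) * Real.log (m + 1) := mul_nonneg (by positivity) (hlm.trans hlm1)
      linarith
    have h19 : |Real.log (a 0)| + P * Real.log (m + 1) ≤
        |Real.log (a 0)| + |c₁ * K₀ + P| * Real.log (m + 1) := by
      have h20 : (P : ℝ) ≤ |c₁ * K₀ + P| := by
        rw [abs_of_pos (by positivity)]
        nlinarith [mul_pos hc₁0 hK0]
      have := mul_le_mul_of_nonneg_right h20 (hlm.trans hlm1)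
      linarith
    have h21 : ((N * K₀ : ℕ) : ℝ) * (|Real.log (a 0)| + P * Real.log (m + 1)) ≤
        (1 / 2) * Real.sqrt m := by
      refine le_trans (mul_le_mul h16 h19 ?_ ?_) hm
      · have := hlm.trans hlm1
        positivity
      · have := hlm.trans hlm1
        positivity
    calc D ^ (N * K₀) * (((N * K₀ : ℕ) : ℝ) * (|Real.log (a 0)| + P * Real.log (m + 1)) / m)
        ≤ Real.sqrt m * ((1 / 2) * Real.sqrt m / m) := by
          refine mul_le_mul hDK (div_le_div_of_nonneg_right h21 hm0.le) ?_ hs0.le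
          have := hlm.trans hlm1
          positivity
      _ = 1 / 2 := by
          have h22 : Real.sqrt m * Real.sqrt m = m := Real.mul_self_sqrt hm0.le
          field_simp
          nlinarith
  have h23 := ht N m
  have h24 := hlow m (N * K₀)
  have hN0 : (0 : ℝ) ≤ (N : ℝ) + 1 := by positivity
  have h25 : ((N : ℝ) + 1) * (1 / 2) * a m ≤ t m := by
    have h26 : ((N : ℝ) + 1) * (q m ^ (N * K₀) * a m) ≤ ((N : ℝ) + 1) * a (m + N * K₀) :=
      mul_le_mul_of_nonneg_left h24 hN0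
    have h27 : (D ^ (N * K₀) - q m ^ (N * K₀)) * (((N : ℝ) + 1) * a m) ≤
        1 / 2 * (((N : ℝ) + 1) * a m) :=
      mul_le_mul_of_nonneg_right herr (mul_nonneg hN0 (h0 m).le)
    nlinarith
  refine le_trans ?_ h25
  have h28 : c₁ / 2 * Real.log m ≤ ((N : ℝ) + 1) * (1 / 2) := by linarith
  exact mul_le_mul_of_nonneg_right h28 (h0 m).le

end Pool.Agent.V8H91.ZO
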