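import Mathlib

/-!
# Dimensions of spaces of homomorphisms between semisimple modules
-/

open Finset

namespace Pool.Agent.V8H91.ZO

section hd

variable (k : Type*) [Field k] (R : Type*) [Ring R] [Algebra k R]

/-- The dimension over `k` of the space of `R`-linear maps. -/
noncomputable def hd (X Y : Type*) [AddCommGroup X] [Module R X] [AddCommGroup Y] [Module R Y]
    [Module k Y] [IsScalarTower k R Y] : ℕ := Module.finrank k (X →ₗ[R] Y)

variable {k R}
variable {X X' Y Y' : Type*} [AddCommGroup X] [Module R X] [AddCommGroup Y] [Module R Y]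
    [Module k Y] [IsScalarTower k R Y] [AddCommGroup X'] [Module R X']
    [AddCommGroup Y'] [Module R Y'] [Module k Y'] [IsScalarTower k R Y']

theorem smul_eq_algebraMap (c : k) (y : Y) : c • y = (algebraMap k R c) • y :=
  (algebraMap_smul R c y).symm

variable (k R) in
/-- An `R`-linear map is `k`-linear. -/
def toK [Module k X] [IsScalarTower k R X] (f : X →ₗ[R] Y) : X →ₗ[k] Y where
  toFun := f
  map_add' := f.map_add
  map_smul' c x := by
    rw [smul_eq_algebraMap (R := R) c x, f.map_smul, RingHom.id_apply,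
      smul_eq_algebraMap (R := R) c (f x)]

instance finite_hom [Module k X] [IsScalarTower k R X] [Module.Finite k X] [Module.Finite k Y] :
    Module.Finite k (X →ₗ[R] Y) := by
  let F : (X →ₗ[R] Y) →ₗ[k] (X →ₗ[k] Y) :=
    { toFun := fun f => toK k R f
      map_add' := fun f g => by ext x; rfl
      map_smul' := fun c f => by ext x; rfl }
  exact Module.Finite.of_injective F (fun f g h => by
    ext x
    exact LinearMap.congr_fun h x)

/-- Homomorphism spaces of isomorphic modules. -/
def homCongr (e : X ≃ₗ[R] X') (f : Y ≃ₗ[R] Y') : (X →ₗ[R] Y) ≃ₗ[k] (X' →ₗ[R] Y') where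
  toFun h := f.toLinearMap ∘ₗ h ∘ₗ e.symm.toLinearMap
  invFun h := f.symm.toLinearMap ∘ₗ h ∘ₗ e.toLinearMap
  map_add' h h' := by ext x; simp
  map_smul' c h := by
    ext x
    simp only [LinearMap.coe_comp, LinearEquiv.coe_coe, Function.comp_apply, LinearMap.smul_apply,
      RingHom.id_apply]
    rw [smul_eq_algebraMap (R := R) c, f.map_smul, smul_eq_algebraMap (R := R) c]
  left_inv h := by ext x; simp
  right_inv h := by ext x; simp

theorem hd_congr (e : X ≃ₗ[R] X') (f : Y ≃ₗ[R] Y') : hd k R X Y = hd k R X' Y' :=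
  (homCongr (k := k) e f).finrank_eq

/-- Maps to a product. -/
def homPi {ι : Type*} (Z : ι → Type*) [∀ i, AddCommGroup (Z i)] [∀ i, Module R (Z i)]
    [∀ i, Module k (Z i)] [∀ i, IsScalarTower k R (Z i)] :
    (X →ₗ[R] ∀ i, Z i) ≃ₗ[k] ∀ i, (X →ₗ[R] Z i) where
  toFun h i := LinearMap.proj i ∘ₗ h
  invFun h := LinearMap.pi h
  map_add' h h' := by ext i x; rfl
  map_smul' c h := by ext i x; rfl
  left_inv h := by ext x i; rfl
  right_inv h := by ext i x; rfl

theorem hd_pi_right {ι : Type*} [Fintype ι] (Z : ι → Type*) [∀ i, AddCommGroup (Z i)]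
    [∀ i, Module R (Z i)] [∀ i, Module k (Z i)] [∀ i, IsScalarTower k R (Z i)]
    [∀ i, Module.Finite k (Z i)] [Module k X] [IsScalarTower k R X] [Module.Finite k X] :
    hd k R X (∀ i, Z i) = ∑ i, hd k R X (Z i) := by
  unfold hd
  rw [(homPi (k := k) (X := X) Z).finrank_eq, Module.finrank_pi_fintype]

theorem hd_pi_left {ι : Type*} [Fintype ι] [DecidableEq ι] (Z : ι → Type*)
    [∀ i, AddCommGroup (Z i)] [∀ i, Module R (Z i)] [∀ i, Module k (Z i)]
    [∀ i, IsScalarTower k R (Z i)] [∀ i, Module.Finite k (Z i)] [Module.Finite k Y] :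
    hd k R (∀ i, Z i) Y = ∑ i, hd k R (Z i) Y := by
  unfold hd
  rw [← (LinearMap.lsum R Z k (M := Y)).finrank_eq, Module.finrank_pi_fintype]

/-- Maps from a product of two modules. -/
theorem hd_prod_left {Z : Type*} [AddCommGroup Z] [Module R Z] [Module k Z] [IsScalarTower k R Z]
    [Module.Finite k Z] [Module k X] [IsScalarTower k R X] [Module.Finite k X]
    [Module.Finite k Y] :
    hd k R (X × Z) Y = hd k R X Y + hd k R Z Y := by
  unfold hd
  rw [← Module.finrank_prod]
  exact (LinearMap.coprodEquiv k (M := X) (M₂ := Z) (M₃ := Y) (R := R)).finrank_eq.symm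

end hd

section schur

variable {k : Type*} [Field k] {R : Type*} [Ring R] [Algebra k R]
variable {X Y : Type*} [AddCommGroup X] [Module R X] [AddCommGroup Y] [Module R Y]
    [Module k Y] [IsScalarTower k R Y]

theorem hd_eq_zero [IsSimpleModule R X] [IsSimpleModule R Y] (h : ¬ Nonempty (X ≃ₗ[R] Y)) :
    hd k R X Y = 0 := by
  have : Subsingleton (X →ₗ[R] Y) := by
    constructor
    have key : ∀ f : X →ₗ[R] Y, f = 0 := by
      intro f
      rcases f.bijective_or_eq_zero with hf | hf
      · exact absurd ⟨LinearEquiv.ofBijective f hf⟩ h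
      · exact hf
    intro f g
    rw [key f, key g]
  unfold hd
  exact Module.finrank_zero_of_subsingleton

theorem hd_self_pos [Module k X] [IsScalarTower k R X] [Module.Finite k X]
    [IsSimpleModule R X] : 0 < hd k R X X := by
  have : Nontrivial X := IsSimpleModule.nontrivial R X
  have : Nontrivial (X →ₗ[R] X) := by
    obtain ⟨x, hx⟩ := exists_ne (0 : X)
    exact ⟨⟨LinearMap.id, 0, fun h => hx (by simpa using LinearMap.congr_fun h x)⟩⟩
  unfold hd
  exact Module.finrank_pos

end schur

section family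

variable {k : Type*} [Field k] {R : Type*} [Ring R] [Algebra k R]
variable {ι : Type*} [Fintype ι] (S : ι → Type*) [∀ i, AddCommGroup (S i)]
  [∀ i, Module R (S i)] [∀ i, Module k (S i)] [∀ i, IsScalarTower k R (S i)]

open Classical in
/-- The number of the members of the family isomorphic to a module. -/
noncomputable def cnt (R : Type*) [Ring R] [∀ i, Module R (S i)] (Y : Type*) [AddCommGroup Y]
    [Module R Y] : ℕ :=
  (univ.filter fun i => Nonempty (S i ≃ₗ[R] Y)).card

theorem cnt_congr {Y Y' : Type*} [AddCommGroup Y] [Module R Y] [AddCommGroup Y'] [Module R Y']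
    (e : Y ≃ₗ[R] Y') : cnt S R Y = cnt S R Y' := by
  classical
  unfold cnt
  congr 1
  ext i
  simp only [mem_filter, mem_univ, true_and]
  exact ⟨fun ⟨f⟩ => ⟨f.trans e⟩, fun ⟨f⟩ => ⟨f.trans e.symm⟩⟩

theorem cnt_self_pos (i : ι) : 0 < cnt S R (S i) := by
  classical
  unfold cnt
  exact card_pos.2 ⟨i, by simp only [mem_filter, mem_univ, true_and]; exact ⟨LinearEquiv.refl R _⟩⟩

theorem finrank_congr_R {Y Y' : Type*} [AddCommGroup Y] [Module R Y] [Module k Y]
    [IsScalarTower k R Y] [AddCommGroup Y'] [Module R Y'] [Module k Y'] [IsScalarTower k R Y']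
    (e : Y ≃ₗ[R] Y') : Module.finrank k Y = Module.finrank k Y' :=
  (LinearEquiv.ofLinearMap (toK k R e.toLinearMap) (toK k R e.symm.toLinearMap)
    (by ext x; exact e.apply_symm_apply x) (by ext x; exact e.symm_apply_apply x)).finrank_eq

variable (k R) in
/-- The weight `d / (e n)` of a member of a family of simple modules. -/
noncomputable def wt (i : ι) : ℝ :=
  (Module.finrank k (S i) : ℝ) / (hd k R (S i) (S i) * cnt S R (S i))

theorem wt_nonneg (i : ι) : 0 ≤ wt k R S i := by
  unfold wt; positivity

/-- The basic inequality, for one simple module on the right side. -/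
theorem sum_simple_le [∀ i, Module.Finite k (S i)] [∀ i, IsSimpleModule R (S i)]
    {T : Type*} [AddCommGroup T] [Module R T] [Module k T] [IsScalarTower k R T]
    [IsSimpleModule R T] :
    ∑ i, (hd k R (S i) T : ℝ) * wt k R S i ≤ Module.finrank k T := by
  classical
  have h1 : ∀ i, (hd k R (S i) T : ℝ) * wt k R S i =
      if Nonempty (S i ≃ₗ[R] T) then (Module.finrank k T : ℝ) / cnt S R T else 0 := by
    intro i
    by_cases hi : Nonempty (S i ≃ₗ[R] T)
    · rw [if_pos hi]
      obtain ⟨e⟩ := hi
      have he : (hd k R (S i) (S i) : ℝ) ≠ 0 := by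
        have := hd_self_pos (k := k) (R := R) (X := S i)
        positivity
      unfold wt
      rw [← hd_congr (LinearEquiv.refl R (S i)) e, cnt_congr S e, finrank_congr_R (k := k) e]
      field_simp
    · rw [if_neg hi, hd_eq_zero hi]
      simp
  rw [Finset.sum_congr rfl fun i _ => h1 i, ← Finset.sum_filter, Finset.sum_const]
  change (cnt S R T) • _ ≤ _
  rw [nsmul_eq_mul]
  rcases Nat.eq_zero_or_pos (cnt S R T) with h | h
  · rw [h]; simp
  · have : (cnt S R T : ℝ) ≠ 0 := by positivity
    rw [mul_div_cancel₀ _ this]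

/-- The basic inequality, for one simple module on the left side. -/
theorem sum_simple_le' [∀ i, Module.Finite k (S i)] [∀ i, IsSimpleModule R (S i)]
    {T : Type*} [AddCommGroup T] [Module R T] [Module k T] [IsScalarTower k R T]
    [IsSimpleModule R T] :
    ∑ i, (hd k R T (S i) : ℝ) * wt k R S i ≤ Module.finrank k T := by
  classical
  have h1 : ∀ i, (hd k R T (S i) : ℝ) * wt k R S i =
      if Nonempty (S i ≃ₗ[R] T) then (Module.finrank k T : ℝ) / cnt S R T else 0 := by
    intro i
    by_cases hi : Nonempty (S i ≃ₗ[R] T)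
    · rw [if_pos hi]
      obtain ⟨e⟩ := hi
      have he : (hd k R (S i) (S i) : ℝ) ≠ 0 := by
        have := hd_self_pos (k := k) (R := R) (X := S i)
        positivity
      unfold wt
      rw [← hd_congr e (LinearEquiv.refl R (S i)), cnt_congr S e, finrank_congr_R (k := k) e]
      field_simp
    · rw [if_neg hi, hd_eq_zero fun ⟨e⟩ => hi ⟨e.symm⟩]
      simp
  rw [Finset.sum_congr rfl fun i _ => h1 i, ← Finset.sum_filter, Finset.sum_const]
  change (cnt S R T) • _ ≤ _
  rw [nsmul_eq_mul]
  rcases Nat.eq_zero_or_pos (cnt S R T) with h | h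
  · rw [h]; simp
  · have : (cnt S R T : ℝ) ≠ 0 := by positivity
    rw [mul_div_cancel₀ _ this]

end family

section decomposition

variable {k : Type*} [Field k] {R : Type*} [Ring R] [Algebra k R]

theorem finite_R (k : Type*) [Field k] (R : Type*) [Ring R] [Algebra k R] (Y : Type*)
    [AddCommGroup Y] [Module R Y] [Module k Y] [IsScalarTower k R Y] [Module.Finite k Y] :
    Module.Finite R Y := Module.Finite.of_restrictScalars_finite k R Y

instance finite_sub {Y : Type*} [AddCommGroup Y] [Module R Y] [Module k Y] [IsScalarTower k R Y]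
    [Module.Finite k Y] (p : Submodule R Y) : Module.Finite k p :=
  Module.Finite.of_injective (toK k R p.subtype) Subtype.val_injective

/-- A decomposition into simple modules. -/
theorem exists_pi (k : Type*) [Field k] (R : Type*) [Ring R] [Algebra k R] (Y : Type*)
    [AddCommGroup Y] [Module R Y] [Module k Y] [IsScalarTower k R Y]
    [Module.Finite k Y] [IsSemisimpleModule R Y] :
    ∃ (n : ℕ) (T : Fin n → Submodule R Y) (_ : Y ≃ₗ[R] ∀ i : Fin n, T i),
      ∀ i, IsSimpleModule R (T i) := by
  have := finite_R k R Y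
  obtain ⟨n, T, e, h⟩ := IsSemisimpleModule.exists_linearEquiv_fin_dfinsupp R Y
  exact ⟨n, T, e.trans (DFinsupp.linearEquivFunOnFintype), h⟩

variable {ι : Type*} [Fintype ι] (S : ι → Type*) [∀ i, AddCommGroup (S i)]
  [∀ i, Module R (S i)] [∀ i, Module k (S i)] [∀ i, IsScalarTower k R (S i)]

/-- The basic inequality for semisimple modules. -/
theorem sum_le [∀ i, Module.Finite k (S i)] [∀ i, IsSimpleModule R (S i)]
    (Y : Type*) [AddCommGroup Y] [Module R Y] [Module k Y] [IsScalarTower k R Y]
    [Module.Finite k Y] [IsSemisimpleModule R Y] :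
    ∑ i, (hd k R (S i) Y : ℝ) * wt k R S i ≤ Module.finrank k Y := by
  obtain ⟨n, T, e, hT⟩ := exists_pi k R Y
  have h1 : ∀ i, hd k R (S i) Y = ∑ a, hd k R (S i) (T a) := fun i => by
    rw [hd_congr (LinearEquiv.refl R (S i)) e, hd_pi_right]
  have h2 : Module.finrank k Y = ∑ a, Module.finrank k (T a) := by
    rw [finrank_congr_R (k := k) e, Module.finrank_pi_fintype]
  rw [h2]
  push_cast
  calc ∑ i, (hd k R (S i) Y : ℝ) * wt k R S i
      = ∑ a, ∑ i, (hd k R (S i) (T a) : ℝ) * wt k R S i := by
        rw [Finset.sum_comm]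
        refine Finset.sum_congr rfl fun i _ => ?_
        rw [h1 i]
        push_cast
        rw [Finset.sum_mul]
    _ ≤ _ := Finset.sum_le_sum fun a _ => by
        have := hT a
        exact sum_simple_le S

/-- The basic inequality for semisimple modules, the other side. -/
theorem sum_le' [∀ i, Module.Finite k (S i)] [∀ i, IsSimpleModule R (S i)]
    (Y : Type*) [AddCommGroup Y] [Module R Y] [Module k Y] [IsScalarTower k R Y]
    [Module.Finite k Y] [IsSemisimpleModule R Y] :
    ∑ i, (hd k R Y (S i) : ℝ) * wt k R S i ≤ Module.finrank k Y := by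
  classical
  obtain ⟨n, T, e, hT⟩ := exists_pi k R Y
  have h1 : ∀ i, hd k R Y (S i) = ∑ a, hd k R (T a) (S i) := fun i => by
    rw [hd_congr e (LinearEquiv.refl R (S i)), hd_pi_left]
  have h2 : Module.finrank k Y = ∑ a, Module.finrank k (T a) := by
    rw [finrank_congr_R (k := k) e, Module.finrank_pi_fintype]
  rw [h2]
  push_cast
  calc ∑ i, (hd k R Y (S i) : ℝ) * wt k R S i
      = ∑ a, ∑ i, (hd k R (T a) (S i) : ℝ) * wt k R S i := by
        rw [Finset.sum_comm]
        refine Finset.sum_congr rfl fun i _ => ?_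
        rw [h1 i]
        push_cast
        rw [Finset.sum_mul]
    _ ≤ _ := Finset.sum_le_sum fun a _ => by
        have := hT a
        exact sum_simple_le' S

/-- The dimension of the endomorphism ring. -/
theorem hd_end [∀ i, Module.Finite k (S i)] [∀ i, IsSimpleModule R (S i)] :
    hd k R (∀ i, S i) (∀ i, S i) = ∑ i, hd k R (S i) (S i) * cnt S R (S i) := by
  classical
  rw [hd_pi_right, Finset.sum_congr rfl fun i _ => hd_pi_left (k := k) (R := R) (Y := S i) S]
  refine Finset.sum_congr rfl fun i _ => ?_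
  have h1 : ∀ j, hd k R (S j) (S i) = if Nonempty (S j ≃ₗ[R] S i) then hd k R (S i) (S i)
      else 0 := by
    intro j
    by_cases hj : Nonempty (S j ≃ₗ[R] S i)
    · rw [if_pos hj]
      obtain ⟨e⟩ := hj
      exact hd_congr e (LinearEquiv.refl R _)
    · rw [if_neg hj, hd_eq_zero hj]
  rw [Finset.sum_congr rfl fun j _ => h1 j, ← Finset.sum_filter, Finset.sum_const, smul_eq_mul,
    mul_comm]
  rfl

end decomposition

end Pool.Agent.V8H91.ZO
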