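import Pool.Agent.V8H91.ZO.Hom

/-!
# Inequalities for dimensions of spaces of homomorphisms
-/

open Finset

namespace Pool.Agent.V8H91.ZO

variable {k : Type*} [Field k] {R : Type*} [Ring R] [Algebra k R]

section family

variable {ι : Type*} [Fintype ι] (S : ι → Type*) [∀ i, AddCommGroup (S i)]
  [∀ i, Module R (S i)] [∀ i, Module k (S i)] [∀ i, IsScalarTower k R (S i)]

open Classical in
theorem sum_iso_le (T : Type*) [AddCommGroup T] [Module R T] {z : ℝ} (hz : 0 ≤ z) :
    ∑ i, (if Nonempty (S i ≃ₗ[R] T) then z / cnt S R T else 0) ≤ z := by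
  rw [← Finset.sum_filter, Finset.sum_const]
  change (cnt S R T) • _ ≤ _
  rw [nsmul_eq_mul]
  rcases Nat.eq_zero_or_pos (cnt S R T) with h | h
  · rw [h]; simpa using hz
  · have : (cnt S R T : ℝ) ≠ 0 := by positivity
    rw [mul_div_cancel₀ _ this]

variable [∀ i, Module.Finite k (S i)] [∀ i, IsSimpleModule R (S i)]

theorem finrank_simple_pos (R : Type*) [Ring R] {ι : Type*} (S : ι → Type*)
    [∀ i, AddCommGroup (S i)] [∀ i, Module R (S i)] [∀ i, Module k (S i)]
    [∀ i, Module.Finite k (S i)] [∀ i, IsSimpleModule R (S i)] (i : ι) :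
    (0 : ℝ) < Module.finrank k (S i) := by
  have : Nontrivial (S i) := IsSimpleModule.nontrivial R (S i)
  exact_mod_cast Module.finrank_pos (R := k) (M := S i)

theorem end_pos (i : ι) : (0 : ℝ) < hd k R (S i) (S i) * cnt S R (S i) := by
  have h1 := hd_self_pos (k := k) (R := R) (X := S i)
  have h2 := cnt_self_pos (R := R) S i
  positivity

theorem wt_pos (i : ι) : 0 < wt k R S i := div_pos (finrank_simple_pos R S i) (end_pos S i)

theorem finrank_div_wt (i : ι) :
    (Module.finrank k (S i) : ℝ) / wt k R S i = hd k R (S i) (S i) * cnt S R (S i) := by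
  unfold wt
  have h1 := finrank_simple_pos (k := k) R S i
  have h2 := end_pos (k := k) (R := R) S i
  rw [div_div_eq_mul_div, mul_div_assoc, mul_comm, div_mul_cancel₀ _ h1.ne']

/-- The Schur test. -/
theorem schur_test {D : ℝ} (c : ι → ι → ℝ) (hc : ∀ i j, 0 ≤ c i j)
    (h1 : ∀ i, ∑ j, c i j * wt k R S j ≤ D * Module.finrank k (S i))
    (h2 : ∀ j, ∑ i, c i j * wt k R S i ≤ D * Module.finrank k (S j)) :
    ∑ i, ∑ j, c i j ≤ D * hd k R (∀ i, S i) (∀ i, S i) := by
  have hw := wt_pos (k := k) (R := R) S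
  have e1 : D * (hd k R (∀ i, S i) (∀ i, S i) : ℝ) =
      ∑ i, (D * Module.finrank k (S i)) / wt k R S i := by
    rw [hd_end S]
    push_cast
    rw [Finset.mul_sum]
    refine Finset.sum_congr rfl fun i _ => ?_
    rw [mul_div_assoc, finrank_div_wt]
  have key : ∀ i j, c i j ≤
      (c i j * wt k R S j / wt k R S i + c i j * wt k R S i / wt k R S j) / 2 := by
    intro i j
    have hi := hw i
    have hj := hw j
    have h3 : 2 ≤ wt k R S j / wt k R S i + wt k R S i / wt k R S j := by
      rw [div_add_div _ _ hi.ne' hj.ne', le_div_iff₀ (mul_pos hi hj)]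
      nlinarith [sq_nonneg (wt k R S j - wt k R S i)]
    have h4 := mul_le_mul_of_nonneg_left h3 (hc i j)
    have h5 : c i j * wt k R S j / wt k R S i + c i j * wt k R S i / wt k R S j =
      c i j * (wt k R S j / wt k R S i + wt k R S i / wt k R S j) := by ring
    rw [h5]
    linarith
  have s1 : ∑ i, ∑ j, c i j * wt k R S j / wt k R S i ≤
      ∑ i, (D * Module.finrank k (S i)) / wt k R S i := by
    refine Finset.sum_le_sum fun i _ => ?_
    rw [← Finset.sum_div]
    exact div_le_div_of_nonneg_right (h1 i) (hw i).le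
  have s2 : ∑ i, ∑ j, c i j * wt k R S i / wt k R S j ≤
      ∑ i, (D * Module.finrank k (S i)) / wt k R S i := by
    rw [Finset.sum_comm]
    refine Finset.sum_le_sum fun j _ => ?_
    rw [← Finset.sum_div]
    exact div_le_div_of_nonneg_right (h2 j) (hw j).le
  rw [e1]
  calc ∑ i, ∑ j, c i j
      ≤ ∑ i, ∑ j, (c i j * wt k R S j / wt k R S i + c i j * wt k R S i / wt k R S j) / 2 :=
        Finset.sum_le_sum fun i _ => Finset.sum_le_sum fun j _ => key i j
    _ = ((∑ i, ∑ j, c i j * wt k R S j / wt k R S i) +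
        ∑ i, ∑ j, c i j * wt k R S i / wt k R S j) / 2 := by
        rw [← Finset.sum_add_distrib, Finset.sum_div]
        refine Finset.sum_congr rfl fun i _ => ?_
        rw [← Finset.sum_add_distrib, Finset.sum_div]
    _ ≤ _ := by linarith

/-- Cauchy-Schwarz with weights. -/
theorem cs_weights (y : ι → ℝ) {B : ℝ}
    (h : ∑ i, y i ^ 2 / (hd k R (S i) (S i) * cnt S R (S i)) ≤ B) :
    (∑ i, y i) ^ 2 ≤ hd k R (∀ i, S i) (∀ i, S i) * B := by
  have he := end_pos (k := k) (R := R) S
  have h1 : (∑ i, y i) ^ 2 ≤ (∑ i, (hd k R (S i) (S i) * cnt S R (S i) : ℝ)) *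
      ∑ i, y i ^ 2 / (hd k R (S i) (S i) * cnt S R (S i)) := by
    refine Finset.sum_sq_le_sum_mul_sum_of_sq_le_mul _ (fun i _ => (he i).le)
      (fun i _ => div_nonneg (sq_nonneg _) (he i).le) fun i _ => ?_
    rw [mul_div_cancel₀ _ (he i).ne']
  have h2 : (∑ i, (hd k R (S i) (S i) * cnt S R (S i) : ℝ)) =
      hd k R (∀ i, S i) (∀ i, S i) := by
    rw [hd_end S]; push_cast; rfl
  rw [h2] at h1
  exact h1.trans (mul_le_mul_of_nonneg_left h (by positivity))

end family

/-- The Cauchy-Schwarz inequality for spaces of homomorphisms. -/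
theorem hd_sq_le {X Y : Type*} [AddCommGroup X] [Module R X] [Module k X] [IsScalarTower k R X]
    [Module.Finite k X] [IsSemisimpleModule R X] [AddCommGroup Y] [Module R Y] [Module k Y]
    [IsScalarTower k R Y] [Module.Finite k Y] [IsSemisimpleModule R Y] :
    (hd k R X Y : ℝ) ^ 2 ≤ hd k R X X * hd k R Y Y := by
  classical
  obtain ⟨n, S, eX, hS⟩ := exists_pi k R X
  obtain ⟨p, T, eY, hT⟩ := exists_pi k R Y
  have hXX : hd k R X X = hd k R (∀ i, S i) (∀ i, S i) := hd_congr eX eX
  have hXY : hd k R X Y = ∑ i, hd k R (S i) Y := by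
    rw [hd_congr eX (LinearEquiv.refl R Y), hd_pi_left]
  have hYY : hd k R Y Y = ∑ a, hd k R (T a) Y := by
    rw [hd_congr eY (LinearEquiv.refl R Y), hd_pi_left]
  have hSY : ∀ i, hd k R (S i) Y = ∑ a, hd k R (S i) (T a) := fun i => by
    rw [hd_congr (LinearEquiv.refl R (S i)) eY, hd_pi_right]
  rw [hXX, hXY]
  push_cast
  refine cs_weights (fun i => (S i : Type _)) _ ?_
  have key : ∀ i, (hd k R (S i) Y : ℝ) ^ 2 / (hd k R (S i) (S i) * cnt (fun i => (S i : Type _)) R (S i)) =
      ∑ a, if Nonempty (S i ≃ₗ[R] T a) then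
        (hd k R (T a) Y : ℝ) / cnt (fun i => (S i : Type _)) R (T a) else 0 := by
    intro i
    rw [pow_two, mul_div_assoc]
    conv_lhs => rw [hSY i]
    push_cast
    rw [Finset.sum_mul]
    refine Finset.sum_congr rfl fun a _ => ?_
    by_cases h : Nonempty (S i ≃ₗ[R] T a)
    · rw [if_pos h]
      obtain ⟨e⟩ := h
      have he : (hd k R (S i) (S i) : ℝ) ≠ 0 := by
        have := hd_self_pos (k := k) (R := R) (X := S i)
        positivity
      have hSY' : (hd k R (T a) Y : ℝ) = ∑ x, (hd k R (S i) (T x) : ℝ) := by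
        rw [← hd_congr e (LinearEquiv.refl R Y), hSY i]
        push_cast
        rfl
      rw [← hd_congr (LinearEquiv.refl R (S i)) e, hSY',
        cnt_congr (fun i => (S i : Type _)) e]
      field_simp
    · rw [if_neg h, hd_eq_zero h]
      simp
  rw [Finset.sum_congr rfl fun i _ => key i, Finset.sum_comm, hYY]
  push_cast
  exact Finset.sum_le_sum fun a _ => sum_iso_le (fun i => (S i : Type _)) (T a) (by positivity)

end Pool.Agent.V8H91.ZO
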