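import Pool.Agent.V8H91.ZO.Rep

/-!
# Natural isomorphisms and functoriality
-/

open Finset TensorProduct

namespace Pool.Agent.V8H91.ZO

variable {k : Type*} [Field k] {G : Type*} [Group G]
variable {A : Type*} [AddCommGroup A] [Module k A] [Module (MonoidAlgebra k G) A]
  [IsScalarTower k (MonoidAlgebra k G) A]
variable {B : Type*} [AddCommGroup B] [Module k B] [Module (MonoidAlgebra k G) B]
  [IsScalarTower k (MonoidAlgebra k G) B]
variable {C : Type*} [AddCommGroup C] [Module k C] [Module (MonoidAlgebra k G) C]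
  [IsScalarTower k (MonoidAlgebra k G) C]
variable {D : Type*} [AddCommGroup D] [Module k D] [Module (MonoidAlgebra k G) D]
  [IsScalarTower k (MonoidAlgebra k G) D]

section linear

variable (k A B C)

/-- `a ⊗ ψ ↦ (b ↦ a ⊗ ψ b)`. -/
noncomputable def lK [Module.Finite k A] [Module.Finite k B] :
    A ⊗[k] (B →ₗ[k] C) ≃ₗ[k] (B →ₗ[k] A ⊗[k] C) := lTensorHomEquivHomLTensor k B A C

theorem lK_tmul [Module.Finite k A] [Module.Finite k B] (a : A) (ψ : B →ₗ[k] C) (b : B) :
    lK k A B C (a ⊗ₜ ψ) b = a ⊗ₜ ψ b := by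
  unfold lK
  rw [lTensorHomEquivHomLTensor_apply]
  simp

/-- `f ⊗ c ↦ (a ↦ f a ⊗ c)`. -/
noncomputable def tK [Module.Finite k A] [Module.Finite k C] :
    (A →ₗ[k] B) ⊗[k] C ≃ₗ[k] (A →ₗ[k] B ⊗[k] C) := rTensorHomEquivHomRTensor k A B C

theorem tK_tmul [Module.Finite k A] [Module.Finite k C] (f : A →ₗ[k] B) (c : C) (a : A) :
    tK k A B C (f ⊗ₜ c) a = f a ⊗ₜ c := by
  unfold tK
  rw [rTensorHomEquivHomRTensor_apply]
  simp

/-- `a ⊗ ψ ↦ (f ↦ ψ (f a))`. -/
noncomputable def eK0 : A ⊗[k] (B →ₗ[k] C) →ₗ[k] ((A →ₗ[k] B) →ₗ[k] C) :=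
  TensorProduct.lift (LinearMap.mk₂ k (fun a ψ => ψ ∘ₗ (LinearMap.applyₗ a))
    (fun a a' ψ => by ext f; simp) (fun c a ψ => by ext f; simp)
    (fun a ψ ψ' => by ext f; simp) (fun c a ψ => by ext f; simp))

theorem eK0_tmul (a : A) (ψ : B →ₗ[k] C) (f : A →ₗ[k] B) : eK0 k A B C (a ⊗ₜ ψ) f = ψ (f a) := rfl

theorem eK0_surjective [Module.Finite k A] : Function.Surjective (eK0 k A B C) := by
  classical
  intro F
  let b := Module.finBasis k A
  refine ⟨∑ i, b i ⊗ₜ (F ∘ₗ (LinearMap.smulRightₗ (b.coord i))), ?_⟩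
  ext f
  rw [map_sum, LinearMap.sum_apply]
  simp only [eK0_tmul, LinearMap.comp_apply]
  rw [← map_sum]
  congr 1
  refine b.ext fun j => ?_
  rw [LinearMap.sum_apply]
  simp only [LinearMap.smulRightₗ_apply, LinearMap.smulRight_apply, Module.Basis.coord_apply,
    Module.Basis.repr_self]
  rw [Finset.sum_eq_single j (fun i _ hi => by
    rw [Finsupp.single_eq_of_ne hi, zero_smul]) (by simp)]
  rw [Finsupp.single_eq_same, one_smul]

/-- `a ⊗ ψ ↦ (f ↦ ψ (f a))`. -/
noncomputable def eK [Module.Finite k A] [Module.Finite k B] [Module.Finite k C] :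
    A ⊗[k] (B →ₗ[k] C) ≃ₗ[k] ((A →ₗ[k] B) →ₗ[k] C) :=
  LinearEquiv.ofBijective (eK0 k A B C) ⟨by
    have h := eK0_surjective k A B C
    exact (LinearMap.injective_iff_surjective_of_finrank_eq_finrank (by
      rw [Module.finrank_tensorProduct, Module.finrank_linearMap, Module.finrank_linearMap,
        Module.finrank_linearMap]
      ring)).2 h, eK0_surjective k A B C⟩

theorem eK_tmul [Module.Finite k A] [Module.Finite k B] [Module.Finite k C] (a : A)
    (ψ : B →ₗ[k] C) (f : A →ₗ[k] B) : eK k A B C (a ⊗ₜ ψ) f = ψ (f a) := rfl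

end linear

section equivariant

/-- Induction for the tensor product. -/
theorem TP.ind {P : TP k G A B → Prop} (h0 : P 0)
    (h1 : ∀ a b, P ((tpE k G A B).symm (a ⊗ₜ b))) (h2 : ∀ x y, P x → P y → P (x + y)) :
    ∀ z, P z := by
  intro z
  obtain ⟨w, rfl⟩ := (tpE k G A B).symm.surjective z
  induction w using TensorProduct.induction_on with
  | zero => simpa using h0
  | tmul m x => exact h1 m x
  | add a b ha hb => rw [map_add]; exact h2 _ _ ha hb

theorem rp_tp (g : G) (a : A) (b : B) : rp k G _ g ((tpE k G A B).symm (a ⊗ₜ b)) =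
    (tpE k G A B).symm (rp k G A g a ⊗ₜ rp k G B g b) := by
  rw [← tpE_symm_rp, TensorProduct.map_tmul]

variable [Module.Finite k A] [Module.Finite k B] [Module.Finite k C]

variable (k G A B C) in
/-- `A ⊗ Hom(B, C) = Hom(B, A ⊗ C)`, as vector spaces. -/
noncomputable def isoLk : TP k G A (HM k G B C) ≃ₗ[k] HM k G B (TP k G A C) :=
  (tpE k G A (HM k G B C)).trans ((TensorProduct.congr (LinearEquiv.refl k A)
    (hmE k G B C)).trans ((lK k A B C).trans ((LinearEquiv.congrRight
      (tpE k G A C).symm).trans (hmE k G B (TP k G A C)).symm)))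

theorem isoLk_apply (a : A) (ψ : HM k G B C) (b : B) :
    hmE k G B (TP k G A C) (isoLk k G A B C ((tpE k G A (HM k G B C)).symm (a ⊗ₜ ψ))) b =
      (tpE k G A C).symm (a ⊗ₜ hmE k G B C ψ b) := by
  unfold isoLk
  simp only [LinearEquiv.trans_apply, LinearEquiv.apply_symm_apply,
        TensorProduct.congr_tmul, LinearEquiv.refl_apply]
  change (tpE k G A C).symm (lK k A B C (a ⊗ₜ hmE k G B C ψ) b) = _
  rw [lK_tmul]

variable (k G A B C) in
/-- `A ⊗ Hom(B, C) = Hom(B, A ⊗ C)`. -/
noncomputable def isoL : TP k G A (HM k G B C) ≃ₗ[MonoidAlgebra k G] HM k G B (TP k G A C) :=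
  mkE (isoLk k G A B C) (by
    intro g z
    induction z using TP.ind with
    | h0 => simp
    | h2 x y hx hy => simp only [map_add, hx, hy]
    | h1 a ψ =>
      apply (hmE k G B (TP k G A C)).injective
      ext b
      rw [rp_tp, isoLk_apply, hmE_rp, hmE_rp, isoLk_apply, rp_tp])

variable (k G A B C) in
/-- `Hom(A, B) ⊗ C = Hom(A, B ⊗ C)`, as vector spaces. -/
noncomputable def isoTk : TP k G (HM k G A B) C ≃ₗ[k] HM k G A (TP k G B C) :=
  (tpE k G (HM k G A B) C).trans ((TensorProduct.congr (hmE k G A B)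
    (LinearEquiv.refl k C)).trans ((tK k A B C).trans ((LinearEquiv.congrRight
      (tpE k G B C).symm).trans (hmE k G A (TP k G B C)).symm)))

theorem isoTk_apply (f : HM k G A B) (c : C) (a : A) :
    hmE k G A (TP k G B C) (isoTk k G A B C ((tpE k G (HM k G A B) C).symm (f ⊗ₜ c))) a =
      (tpE k G B C).symm (hmE k G A B f a ⊗ₜ c) := by
  unfold isoTk
  simp only [LinearEquiv.trans_apply, LinearEquiv.apply_symm_apply,
        TensorProduct.congr_tmul, LinearEquiv.refl_apply]
  change (tpE k G B C).symm (tK k A B C (hmE k G A B f ⊗ₜ c) a) = _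
  rw [tK_tmul]

variable (k G A B C) in
/-- `Hom(A, B) ⊗ C = Hom(A, B ⊗ C)`. -/
noncomputable def isoT : TP k G (HM k G A B) C ≃ₗ[MonoidAlgebra k G] HM k G A (TP k G B C) :=
  mkE (isoTk k G A B C) (by
    intro g z
    induction z using TP.ind with
    | h0 => simp
    | h2 x y hx hy => simp only [map_add, hx, hy]
    | h1 f c =>
      apply (hmE k G A (TP k G B C)).injective
      ext a
      rw [rp_tp, isoTk_apply, hmE_rp, hmE_rp, isoTk_apply, rp_tp])

variable (k G A B C) in
/-- `A ⊗ Hom(B, C) = Hom(Hom(A, B), C)`, as vector spaces. -/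
noncomputable def isoEk : TP k G A (HM k G B C) ≃ₗ[k] HM k G (HM k G A B) C :=
  (tpE k G A (HM k G B C)).trans ((TensorProduct.congr (LinearEquiv.refl k A)
    (hmE k G B C)).trans ((eK k A B C).trans ((LinearEquiv.congrLeft C k
      (hmE k G A B).symm).trans (hmE k G (HM k G A B) C).symm)))

theorem isoEk_apply (a : A) (ψ : HM k G B C) (f : HM k G A B) :
    hmE k G (HM k G A B) C (isoEk k G A B C ((tpE k G A (HM k G B C)).symm (a ⊗ₜ ψ))) f =
      hmE k G B C ψ (hmE k G A B f a) := by
  unfold isoEk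
  simp only [LinearEquiv.trans_apply, LinearEquiv.apply_symm_apply,
        TensorProduct.congr_tmul, LinearEquiv.refl_apply]
  change (eK k A B C (a ⊗ₜ hmE k G B C ψ) (hmE k G A B f)) = _
  rw [eK_tmul]

variable (k G A B C) in
/-- `A ⊗ Hom(B, C) = Hom(Hom(A, B), C)`. -/
noncomputable def isoE : TP k G A (HM k G B C) ≃ₗ[MonoidAlgebra k G] HM k G (HM k G A B) C :=
  mkE (isoEk k G A B C) (by
    intro g z
    induction z using TP.ind with
    | h0 => simp
    | h2 x y hx hy => simp only [map_add, hx, hy]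
    | h1 a ψ =>
      apply (hmE k G (HM k G A B) C).injective
      ext f
      rw [rp_tp, isoEk_apply, hmE_rp, hmE_rp, isoEk_apply, hmE_rp, inv_inv])

end equivariant

section functorial

/-- Functoriality of the tensor product. -/
noncomputable def mapTP (f : A →ₗ[MonoidAlgebra k G] C) (h : B →ₗ[MonoidAlgebra k G] D) :
    TP k G A B →ₗ[MonoidAlgebra k G] TP k G C D :=
  mkR ((tpE k G C D).symm.toLinearMap ∘ₗ (TensorProduct.map (toK k (MonoidAlgebra k G) f)
    (toK k (MonoidAlgebra k G) h)) ∘ₗ (tpE k G A B).toLinearMap) (by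
    intro g z
    induction z using TP.ind with
    | h0 => simp
    | h2 x y hx hy => simp only [map_add, hx, hy]
    | h1 a b =>
      rw [rp_tp]
      simp only [LinearMap.comp_apply, LinearEquiv.coe_coe, LinearEquiv.apply_symm_apply,
        TensorProduct.map_tmul]
      rw [rp_tp]
      change (tpE k G C D).symm (f (rp k G A g a) ⊗ₜ h (rp k G B g b)) = _
      rw [map_rp, map_rp]
      rfl)

theorem mapTP_injective (f : A →ₗ[MonoidAlgebra k G] C) (h : B →ₗ[MonoidAlgebra k G] D)
    (hf : Function.Injective f) (hh : Function.Injective h) : Function.Injective (mapTP f h) := by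
  have h1 : Function.Injective (TensorProduct.map (toK k (MonoidAlgebra k G) f)
      (toK k (MonoidAlgebra k G) h)) :=
    TensorProduct.map_injective_of_flat_flat _ _ hf hh
  intro x y hxy
  have h2 : (tpE k G C D).symm (TensorProduct.map (toK k (MonoidAlgebra k G) f)
      (toK k (MonoidAlgebra k G) h) (tpE k G A B x)) = (tpE k G C D).symm
      (TensorProduct.map (toK k (MonoidAlgebra k G) f)
      (toK k (MonoidAlgebra k G) h) (tpE k G A B y)) := hxy
  exact (tpE k G A B).injective (h1 ((tpE k G C D).symm.injective h2))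

theorem mapTP_surjective (f : A →ₗ[MonoidAlgebra k G] C) (h : B →ₗ[MonoidAlgebra k G] D)
    (hf : Function.Surjective f) (hh : Function.Surjective h) :
    Function.Surjective (mapTP f h) := by
  have h1 : Function.Surjective (TensorProduct.map (toK k (MonoidAlgebra k G) f)
      (toK k (MonoidAlgebra k G) h)) := TensorProduct.map_surjective hf hh
  intro y
  obtain ⟨w, hw⟩ := h1 (tpE k G C D y)
  refine ⟨(tpE k G A B).symm w, ?_⟩
  change (tpE k G C D).symm (TensorProduct.map (toK k (MonoidAlgebra k G) f)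
      (toK k (MonoidAlgebra k G) h) (tpE k G A B ((tpE k G A B).symm w))) = y
  rw [LinearEquiv.apply_symm_apply, hw, LinearEquiv.symm_apply_apply]

/-- Functoriality of the space of linear maps. -/
noncomputable def mapHM (f : C →ₗ[MonoidAlgebra k G] A) (h : B →ₗ[MonoidAlgebra k G] D) :
    HM k G A B →ₗ[MonoidAlgebra k G] HM k G C D :=
  mkR ((hmE k G C D).symm.toLinearMap ∘ₗ ((LinearMap.lcomp k D (toK k (MonoidAlgebra k G) f)) ∘ₗ
    (LinearMap.compRight k (toK k (MonoidAlgebra k G) h))) ∘ₗ (hmE k G A B).toLinearMap) (by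
    intro g z
    simp only [LinearMap.comp_apply, LinearEquiv.coe_coe]
    apply (hmE k G C D).injective
    ext c
    rw [hmE_rp, LinearEquiv.apply_symm_apply, LinearEquiv.apply_symm_apply]
    change h (hmE k G A B (rp k G _ g z) (f c)) =
      rp k G D g (h (hmE k G A B z (f (rp k G C g⁻¹ c))))
    rw [hmE_rp, map_rp, map_rp])

theorem hmE_mapHM (f : C →ₗ[MonoidAlgebra k G] A) (h : B →ₗ[MonoidAlgebra k G] D)
    (z : HM k G A B) (c : C) : hmE k G C D (mapHM f h z) c = h (hmE k G A B z (f c)) := by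
  change hmE k G C D ((hmE k G C D).symm _) c = _
  rw [LinearEquiv.apply_symm_apply]
  rfl

theorem mapHM_injective (f : C →ₗ[MonoidAlgebra k G] A) (h : B →ₗ[MonoidAlgebra k G] D)
    (hf : Function.Surjective f) (hh : Function.Injective h) :
    Function.Injective (mapHM f h) := by
  intro x y hxy
  apply (hmE k G A B).injective
  ext a
  obtain ⟨c, rfl⟩ := hf a
  apply hh
  rw [← hmE_mapHM, hxy, hmE_mapHM]

/-- Isomorphisms of tensor products. -/
noncomputable def congrTP (f : A ≃ₗ[MonoidAlgebra k G] C) (h : B ≃ₗ[MonoidAlgebra k G] D) :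
    TP k G A B ≃ₗ[MonoidAlgebra k G] TP k G C D :=
  LinearEquiv.ofBijective (mapTP f.toLinearMap h.toLinearMap)
    ⟨mapTP_injective _ _ f.injective h.injective, mapTP_surjective _ _ f.surjective h.surjective⟩

end functorial

end Pool.Agent.V8H91.ZO
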