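import Pool.Agent.V8H91.ZO.Power
import Pool.Agent.V8H91.ZO.Growth

/-!
# The zero-one law
-/

open Finset TensorProduct Filter Topology

namespace Pool.Agent.V8H91.ZO

variable {k : Type*} [Field k] {V : Type*} [AddCommGroup V] [Module k V]
  {G : Type*} [Group G]

/-- Conjugation with the action of an element of the group on the tensor power. -/
noncomputable def cj (ρ : Representation k G V) (m : ℕ) (g : G)
    (w : (⨂[k]^m V) →ₗ[k] (⨂[k]^m V)) : (⨂[k]^m V) →ₗ[k] (⨂[k]^m V) :=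
  tmap m (ρ g) ∘ₗ w ∘ₗ tmap m (ρ g⁻¹)

theorem tmap_comp_inv (ρ : Representation k G V) (m : ℕ) (g : G) :
    tmap m (ρ g) ∘ₗ tmap m (ρ g⁻¹) = LinearMap.id := by
  rw [← Module.End.mul_eq_comp, ← tmap_mul, ← map_mul, mul_inv_cancel, map_one, tmap_one]
  rfl

theorem tmap_inv_comp (ρ : Representation k G V) (m : ℕ) (g : G) :
    tmap m (ρ g⁻¹) ∘ₗ tmap m (ρ g) = LinearMap.id := by
  rw [← Module.End.mul_eq_comp, ← tmap_mul, ← map_mul, inv_mul_cancel, map_one, tmap_one]
  rfl

theorem cj_eq_iff (ρ : Representation k G V) (m : ℕ) (g : G)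
    (w : (⨂[k]^m V) →ₗ[k] (⨂[k]^m V)) :
    cj ρ m g w = w ↔ w ∘ₗ tmap m (ρ g) = tmap m (ρ g) ∘ₗ w := by
  unfold cj
  constructor
  · intro h
    have h1 : (tmap m (ρ g) ∘ₗ w ∘ₗ tmap m (ρ g⁻¹)) ∘ₗ tmap m (ρ g) = w ∘ₗ tmap m (ρ g) := by
      rw [h]
    rw [LinearMap.comp_assoc, LinearMap.comp_assoc, tmap_inv_comp, LinearMap.comp_id] at h1
    exact h1.symm
  · intro h
    rw [← LinearMap.comp_assoc, ← h, LinearMap.comp_assoc, tmap_comp_inv, LinearMap.comp_id]

theorem mem_comm_iff (ρ : Representation k G V) (m : ℕ) (w : (⨂[k]^m V) →ₗ[k] (⨂[k]^m V)) :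
    w ∈ comm ρ m ↔ ∀ g, cj ρ m g w = w :=
  ⟨fun h g => (cj_eq_iff ρ m g w).2 (h g), fun h g => (cj_eq_iff ρ m g w).1 (h g)⟩

/-- The exterior product of endomorphisms. -/
noncomputable def prodE (a b : ℕ) (w : (⨂[k]^a V) →ₗ[k] (⨂[k]^a V))
    (w' : (⨂[k]^b V) →ₗ[k] (⨂[k]^b V)) : (⨂[k]^(a + b) V) →ₗ[k] (⨂[k]^(a + b) V) :=
  (mulE k V a b).toLinearMap ∘ₗ TensorProduct.map w w' ∘ₗ (mulE k V a b).symm.toLinearMap

theorem mulE_symm_map (a b : ℕ) (f : V →ₗ[k] V) (z : ⨂[k]^(a + b) V) :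
    (mulE k V a b).symm (tmap (a + b) f z) =
      TensorProduct.map (tmap a f) (tmap b f) ((mulE k V a b).symm z) := by
  rw [LinearEquiv.symm_apply_eq, mulE_map, LinearEquiv.apply_symm_apply]

theorem cj_prodE (ρ : Representation k G V) (a b : ℕ) (g : G) (w : (⨂[k]^a V) →ₗ[k] (⨂[k]^a V))
    (w' : (⨂[k]^b V) →ₗ[k] (⨂[k]^b V)) :
    cj ρ (a + b) g (prodE a b w w') = prodE a b (cj ρ a g w) (cj ρ b g w') := by
  apply LinearMap.ext
  intro z
  unfold cj prodE
  simp only [LinearMap.comp_apply, LinearEquiv.coe_coe]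
  rw [mulE_symm_map, ← mulE_map]
  simp only [TensorProduct.map_comp, LinearMap.comp_apply]

variable [Module.Finite k V]

/-- Multiplication of `F` and `w` and partial trace. -/
noncomputable def ptr (a b : ℕ) (F : (⨂[k]^(a + b) V) →ₗ[k] (⨂[k]^(a + b) V))
    (w : (⨂[k]^a V) →ₗ[k] (⨂[k]^a V)) : (⨂[k]^b V) →ₗ[k] (⨂[k]^b V) :=
  Th k (⨂[k]^a V) (⨂[k]^b V)
    ((mulE k V a b).symm.toLinearMap ∘ₗ F ∘ₗ (mulE k V a b).toLinearMap) w

theorem cj_ptr (ρ : Representation k G V) (a b : ℕ) (g : G)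
    (F : (⨂[k]^(a + b) V) →ₗ[k] (⨂[k]^(a + b) V)) (w : (⨂[k]^a V) →ₗ[k] (⨂[k]^a V)) :
    cj ρ b g (ptr a b F w) = ptr a b (cj ρ (a + b) g F) (cj ρ a g w) := by
  unfold ptr
  have h := Th_conj (tmap a (ρ g)) (tmap a (ρ g⁻¹)) (tmap b (ρ g)) (tmap b (ρ g⁻¹))
    (tmap_inv_comp ρ a g) ((mulE k V a b).symm.toLinearMap ∘ₗ F ∘ₗ (mulE k V a b).toLinearMap) w
  unfold cj
  rw [← h]
  congr 2
  apply LinearMap.ext
  intro z
  simp only [LinearMap.comp_apply, LinearEquiv.coe_coe]
  rw [mulE_symm_map, ← mulE_map]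

/-- Systems of spaces of endomorphisms of the tensor powers closed under products and under the
operations given by the endomorphisms which commute with the group. -/
structure Closed (ρ : Representation k G V)
    (T : ∀ m, Submodule k ((⨂[k]^m V) →ₗ[k] (⨂[k]^m V))) : Prop where
  comm_le : ∀ m, comm ρ m ≤ T m
  prod_mem : ∀ a b w w', w ∈ T a → w' ∈ T b → prodE a b w w' ∈ T (a + b)
  ptr_mem : ∀ a b F w, F ∈ comm ρ (a + b) → w ∈ T a → ptr a b F w ∈ T b

/-- The endomorphisms of the tensor power as the elements of a module. -/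
noncomputable def toH (ρ : Representation k G V) (m : ℕ) :
    ((⨂[k]^m V) →ₗ[k] (⨂[k]^m V)) ≃ₗ[k] HM k G (TX ρ m) (TX ρ m) :=
  ((tpow ρ m).asModuleEquiv.symm.conj).trans (hmE k G (TX ρ m) (TX ρ m)).symm

theorem rp_toH (ρ : Representation k G V) (m : ℕ) (g : G)
    (w : (⨂[k]^m V) →ₗ[k] (⨂[k]^m V)) : rp k G _ g (toH ρ m w) = toH ρ m (cj ρ m g w) := by
  apply (hmE k G (TX ρ m) (TX ρ m)).injective
  apply LinearMap.ext
  intro x
  rw [hmE_rp]
  unfold toH
  simp only [LinearEquiv.trans_apply, LinearEquiv.apply_symm_apply, LinearEquiv.conj_apply_apply,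
    LinearEquiv.symm_symm]
  rw [rp_asModule, rp_asModule]
  simp only [LinearEquiv.apply_symm_apply]
  rfl

theorem toH_symm_rp (ρ : Representation k G V) (m : ℕ) (g : G) (z : HM k G (TX ρ m) (TX ρ m)) :
    (toH ρ m).symm (rp k G _ g z) = cj ρ m g ((toH ρ m).symm z) := by
  rw [LinearEquiv.symm_apply_eq, ← rp_toH, LinearEquiv.apply_symm_apply]

/-- A closed system is stable under all equivariant maps. -/
theorem Closed.map_mem {ρ : Representation k G V}
    {T : ∀ m, Submodule k ((⨂[k]^m V) →ₗ[k] (⨂[k]^m V))} (hT : Closed ρ T) {a b : ℕ}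
    (φ : HM k G (TX ρ a) (TX ρ a) →ₗ[MonoidAlgebra k G] HM k G (TX ρ b) (TX ρ b))
    {w : (⨂[k]^a V) →ₗ[k] (⨂[k]^a V)} (hw : w ∈ T a) :
    (toH ρ b).symm (φ (toH ρ a w)) ∈ T b := by
  let φ' : ((⨂[k]^a V) →ₗ[k] (⨂[k]^a V)) →ₗ[k] ((⨂[k]^b V) →ₗ[k] (⨂[k]^b V)) :=
    (toH ρ b).symm.toLinearMap ∘ₗ (toK k (MonoidAlgebra k G) φ) ∘ₗ (toH ρ a).toLinearMap
  have hφ' : ∀ w, φ' w = (toH ρ b).symm (φ (toH ρ a w)) := fun w => rfl
  have hnat : ∀ g w, φ' (cj ρ a g w) = cj ρ b g (φ' w) := by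
    intro g w
    rw [hφ', hφ', ← rp_toH, map_rp, toH_symm_rp]
  let F : (⨂[k]^(a + b) V) →ₗ[k] (⨂[k]^(a + b) V) := (mulE k V a b).toLinearMap ∘ₗ
    ((Th k (⨂[k]^a V) (⨂[k]^b V)).symm φ') ∘ₗ (mulE k V a b).symm.toLinearMap
  have hF : ∀ w, ptr a b F w = φ' w := by
    intro w
    unfold ptr
    have h1 : (mulE k V a b).symm.toLinearMap ∘ₗ F ∘ₗ (mulE k V a b).toLinearMap =
        (Th k (⨂[k]^a V) (⨂[k]^b V)).symm φ' := by
      apply LinearMap.ext
      intro z
      simp only [F, LinearMap.comp_apply, LinearEquiv.coe_coe, LinearEquiv.symm_apply_apply]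
    rw [h1, LinearEquiv.apply_symm_apply]
  have hcomm : F ∈ comm ρ (a + b) := by
    rw [mem_comm_iff]
    intro g
    have h2 : ∀ w, ptr a b (cj ρ (a + b) g F) w = ptr a b F w := by
      intro w
      obtain ⟨w', rfl⟩ : ∃ w', cj ρ a g w' = w := by
        refine ⟨cj ρ a g⁻¹ w, ?_⟩
        unfold cj
        rw [inv_inv]
        have h3 : tmap a (ρ g) ∘ₗ (tmap a (ρ g⁻¹) ∘ₗ w ∘ₗ tmap a (ρ g)) ∘ₗ tmap a (ρ g⁻¹) =
            (tmap a (ρ g) ∘ₗ tmap a (ρ g⁻¹)) ∘ₗ w ∘ₗ (tmap a (ρ g) ∘ₗ tmap a (ρ g⁻¹)) := by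
          simp only [LinearMap.comp_assoc]
        rw [h3, tmap_comp_inv, LinearMap.id_comp, LinearMap.comp_id]
      rw [← cj_ptr, hF, hF, hnat]
    have h4 : (mulE k V a b).symm.toLinearMap ∘ₗ (cj ρ (a + b) g F) ∘ₗ
        (mulE k V a b).toLinearMap = (mulE k V a b).symm.toLinearMap ∘ₗ F ∘ₗ
        (mulE k V a b).toLinearMap :=
      (Th k (⨂[k]^a V) (⨂[k]^b V)).injective (LinearMap.ext h2)
    apply LinearMap.ext
    intro z
    have h5 := LinearMap.congr_fun h4 ((mulE k V a b).symm z)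
    simp only [LinearMap.comp_apply, LinearEquiv.coe_coe, LinearEquiv.apply_symm_apply] at h5
    exact (mulE k V a b).symm.injective h5
  rw [← hφ', ← hF]
  exact hT.ptr_mem a b F w hcomm hw

/-- The dimension of a cyclic module is at least the number of independent functions. -/
theorem le_finrank_span {Z : Type*} [AddCommGroup Z] [Module k Z] [Module (MonoidAlgebra k G) Z]
    [IsScalarTower k (MonoidAlgebra k G) Z] [Module.Finite k Z] {s : ℕ} (w : Fin s → Z)
    (l : Fin s → Module.Dual k Z)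
    (h : LinearIndependent k fun (i : Fin s) (g : G) => l i (rp k G Z g (w i))) :
    s ≤ Module.finrank k (Submodule.span (MonoidAlgebra k G) {w}) := by
  let L : Fin s → Module.Dual k (Submodule.span (MonoidAlgebra k G) {w}) := fun i =>
    l i ∘ₗ (LinearMap.proj i) ∘ₗ (toK k (MonoidAlgebra k G)
      (Submodule.span (MonoidAlgebra k G) {w}).subtype)
  have hL : LinearIndependent k L := by
    rw [Fintype.linearIndependent_iff] at h ⊢
    intro c hc
    refine h c ?_
    funext g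
    have h1 := LinearMap.congr_fun hc
      ⟨MonoidAlgebra.of k G g • w, Submodule.mem_span_singleton.2 ⟨_, rfl⟩⟩
    simp only [LinearMap.sum_apply, LinearMap.smul_apply] at h1
    simp only [Finset.sum_apply, Pi.smul_apply]
    exact h1
  have h2 := hL.fintype_card_le_finrank
  rw [Fintype.card_fin, Subspace.dual_finrank_eq] at h2
  exact h2

/-- Functions on the group given by elements of the system. -/
def Rp (ρ : Representation k G V) (T : ∀ m, Submodule k ((⨂[k]^m V) →ₗ[k] (⨂[k]^m V)))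
    (K : ℕ) (F : G → k) : Prop :=
  ∃ w ∈ T K, ∃ l : Module.Dual k ((⨂[k]^K V) →ₗ[k] (⨂[k]^K V)), ∀ g, F g = l (cj ρ K g w)

theorem Rp.mul {ρ : Representation k G V}
    {T : ∀ m, Submodule k ((⨂[k]^m V) →ₗ[k] (⨂[k]^m V))} (hT : Closed ρ T) {a b : ℕ}
    {F F' : G → k} (h : Rp ρ T a F) (h' : Rp ρ T b F') : Rp ρ T (a + b) (F * F') := by
  obtain ⟨w, hw, l, hl⟩ := h
  obtain ⟨w', hw', l', hl'⟩ := h'
  refine ⟨prodE a b w w', hT.prod_mem a b w w' hw hw',
    (TensorProduct.lid k k).toLinearMap ∘ₗ (TensorProduct.map l l') ∘ₗ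
      (homTensorHomEquiv k (⨂[k]^a V) (⨂[k]^b V) (⨂[k]^a V) (⨂[k]^b V)).symm.toLinearMap ∘ₗ
      ((mulE k V a b).symm.conj).toLinearMap, fun g => ?_⟩
  rw [cj_prodE]
  simp only [LinearMap.comp_apply, LinearEquiv.coe_coe, Pi.mul_apply]
  have h1 : (mulE k V a b).symm.conj (prodE a b (cj ρ a g w) (cj ρ b g w')) =
      homTensorHomEquiv k (⨂[k]^a V) (⨂[k]^b V) (⨂[k]^a V) (⨂[k]^b V)
        (cj ρ a g w ⊗ₜ cj ρ b g w') := by
    rw [homTensorHomEquiv_apply, homTensorHomMap_apply]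
    apply LinearMap.ext
    intro z
    unfold prodE
    simp only [LinearEquiv.conj_apply_apply, LinearMap.comp_apply, LinearEquiv.coe_coe,
      LinearEquiv.symm_symm, LinearEquiv.symm_apply_apply]
  rw [h1, LinearEquiv.symm_apply_apply, TensorProduct.map_tmul, hl, hl']
  simp

theorem Rp.one [Nontrivial V] {ρ : Representation k G V}
    {T : ∀ m, Submodule k ((⨂[k]^m V) →ₗ[k] (⨂[k]^m V))} (hT : Closed ρ T) (K : ℕ) :
    Rp ρ T K 1 := by
  have h0 : 0 < Module.finrank k (⨂[k]^K V) := by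
    rw [finrank_tensorPower]
    exact pow_pos (Module.finrank_pos (R := k) (M := V)) K
  have this : Nontrivial (⨂[k]^K V) := Module.nontrivial_of_finrank_pos (R := k) h0
  have hne : (LinearMap.id : (⨂[k]^K V) →ₗ[k] (⨂[k]^K V)) ≠ 0 := by
    intro h
    obtain ⟨x, hx⟩ := @exists_ne (⨂[k]^K V) this 0
    exact hx (LinearMap.congr_fun h x)
  obtain ⟨l, hl⟩ : ∃ l : Module.Dual k ((⨂[k]^K V) →ₗ[k] (⨂[k]^K V)),
      l LinearMap.id ≠ 0 := by
    by_contra hcon
    push Not at hcon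
    exact hne ((Module.forall_dual_apply_eq_zero_iff k _).1 hcon)
  refine ⟨LinearMap.id, hT.comm_le K fun g => by rw [LinearMap.id_comp, LinearMap.comp_id],
    (l LinearMap.id)⁻¹ • l, fun g => ?_⟩
  have h1 : cj ρ K g LinearMap.id = LinearMap.id := by
    unfold cj
    rw [LinearMap.id_comp, tmap_comp_inv]
  rw [h1, LinearMap.smul_apply, smul_eq_mul, inv_mul_cancel₀ hl]
  rfl

theorem Rp.pow [Nontrivial V] {ρ : Representation k G V}
    {T : ∀ m, Submodule k ((⨂[k]^m V) →ₗ[k] (⨂[k]^m V))} (hT : Closed ρ T) {K : ℕ}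
    {F : G → k} (h : Rp ρ T K F) (N : ℕ) : ∀ i ≤ N, Rp ρ T (N * K) (F ^ i) := by
  induction N with
  | zero =>
    intro i hi
    rw [Nat.le_zero.1 hi, pow_zero]
    exact Rp.one hT _
  | succ N ih =>
    intro i hi
    rw [Nat.succ_mul]
    rcases Nat.lt_or_ge i (N + 1) with h1 | h1
    · have h2 := (ih i (by omega)).mul hT (Rp.one hT K)
      rwa [mul_one] at h2
    · have h2 : i = N + 1 := le_antisymm hi h1
      rw [h2, pow_succ]
      exact (ih N le_rfl).mul hT h

/-- The lower bound given by independent functions, for every `m`. -/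
theorem lower_bound_pt {ρ : Representation k G V} (hss : SS ρ)
    {T : ∀ m, Submodule k ((⨂[k]^m V) →ₗ[k] (⨂[k]^m V))} (hT : Closed ρ T) {K s : ℕ}
    {F : Fin s → G → k} (hF : ∀ i, Rp ρ T K (F i)) (hli : LinearIndependent k F) (m : ℕ) :
    (s : ℝ) * Module.finrank k (comm ρ (m + K)) -
      (s * ((Module.finrank k V : ℝ) ^ 2) ^ K - s) *
        Module.finrank k (comm ρ m) ≤ Module.finrank k (T m) := by
  choose w hw l hl using hF
  let z : Fin s → HM k G (TX ρ K) (TX ρ K) := fun i => toH ρ K (w i)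
  have h1 : s ≤ Module.finrank k (Submodule.span (MonoidAlgebra k G) {z}) := by
    refine le_finrank_span z (fun i => l i ∘ₗ (toH ρ K).symm.toLinearMap) ?_
    have h2 : (fun (i : Fin s) (g : G) => (l i ∘ₗ (toH ρ K).symm.toLinearMap)
        (rp k G _ g (z i))) = F := by
      funext i g
      simp only [LinearMap.comp_apply, LinearEquiv.coe_coe, z]
      rw [rp_toH, LinearEquiv.symm_apply_apply, hl]
    rw [h2]
    exact hli
  have h3 : (s : ℝ) * Module.finrank k (comm ρ (m + K)) -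
      (s * ((Module.finrank k V : ℝ) ^ 2) ^ K -
        Module.finrank k (Submodule.span (MonoidAlgebra k G) {z})) *
        Module.finrank k (comm ρ m) ≤ Module.finrank k (T m) := by
    have s1 := semisimple_TX hss m
    have h4 := main_ineq (X := TX ρ K) (Y := TX ρ m) (semisimple_HM_TP hss K K m) z
      ((T m).map (toH ρ m).toLinearMap) (fun φ => by
        have h5 : φ z = ∑ i, φ (Pi.single i (z i)) := by
          rw [← map_sum]
          congr 1
          exact (Finset.univ_sum_single z).symm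
        rw [h5]
        refine Submodule.sum_mem _ fun i _ => ?_
        have h6 := hT.map_mem (φ ∘ₗ LinearMap.single (MonoidAlgebra k G)
          (fun _ : Fin s => HM k G (TX ρ K) (TX ρ K)) i) (hw i)
        refine ⟨_, h6, ?_⟩
        rw [LinearEquiv.coe_coe, LinearEquiv.apply_symm_apply]
        rfl)
    rw [hd_TP_TX, hd_TX, finrank_TX, (toH ρ m).finrank_map_eq, add_comm K m] at h4
    push_cast at h4
    rw [← pow_mul, mul_comm K 2, pow_mul] at h4
    exact h4
  refine le_trans ?_ h3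
  have h8 : (s : ℝ) ≤ Module.finrank k (Submodule.span (MonoidAlgebra k G) {z}) := by
    exact_mod_cast h1
  have h9 : (0 : ℝ) ≤ Module.finrank k (comm ρ m) := by positivity
  nlinarith [mul_le_mul_of_nonneg_right h8 h9]

/-- The powers of a function with infinitely many values are independent. -/
theorem linearIndependent_pow {F : G → k} (hj : (Set.range F).Infinite) (C : ℕ) :
    LinearIndependent k fun i : Fin (C + 1) => F ^ (i : ℕ) := by
  rw [Fintype.linearIndependent_iff]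
  intro c hc i
  let p : Polynomial k := ∑ i : Fin (C + 1), Polynomial.monomial (i : ℕ) (c i)
  have hp : ∀ g, p.eval (F g) = 0 := by
    intro g
    have h1 := congrFun hc g
    simp only [Finset.sum_apply, Pi.smul_apply, Pi.pow_apply, smul_eq_mul,
      Pi.zero_apply] at h1
    simp only [p, Polynomial.eval_finsetSum, Polynomial.eval_monomial]
    exact h1
  have hp0 : p = 0 := Polynomial.eq_zero_of_infinite_isRoot p (hj.mono (by
    rintro _ ⟨g, rfl⟩
    exact hp g))
  have h2 : p.coeff (i : ℕ) = c i := by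
    simp only [p, Polynomial.finsetSum_coeff, Polynomial.coeff_monomial]
    rw [Finset.sum_eq_single i (fun j _ hij => by
      rw [if_neg (fun h => hij (Fin.ext h))]) (by simp)]
    simp
  rw [← h2, hp0, Polynomial.coeff_zero]

/-- Endomorphisms of a space of dimension at most one. -/
theorem exists_smul_id {X : Type*} [AddCommGroup X] [Module k X] [Module.Finite k X]
    (h : Module.finrank k X ≤ 1) (w : X →ₗ[k] X) : ∃ c : k, w = c • LinearMap.id := by
  obtain ⟨v, hv⟩ := finrank_le_one_iff.1 h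
  obtain ⟨c, hc⟩ := hv (w v)
  refine ⟨c, LinearMap.ext fun x => ?_⟩
  obtain ⟨d, rfl⟩ := hv x
  rw [map_smul, ← hc, LinearMap.smul_apply, LinearMap.id_apply, smul_comm]

/-- **The zero-one law.** If some element of the system has infinitely many conjugates then the
commutants have density at most `O(1 / log m)` in the system. -/
theorem zero_one {ρ : Representation k G V} (hss : SS ρ)
    {T : ∀ m, Submodule k ((⨂[k]^m V) →ₗ[k] (⨂[k]^m V))} (hT : Closed ρ T) {K : ℕ}
    {w : (⨂[k]^K V) →ₗ[k] (⨂[k]^K V)} (hw : w ∈ T K)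
    (hinf : (Set.range fun g => cj ρ K g w).Infinite) :
    ∃ c : ℝ, 0 < c ∧ ∀ᶠ m : ℕ in atTop,
      c * Real.log m * Module.finrank k (comm ρ m) ≤ Module.finrank k (T m) := by
  classical
  have h2 : 2 ≤ Module.finrank k (⨂[k]^K V) := by
    by_contra hcon
    obtain ⟨c, rfl⟩ := exists_smul_id (k := k) (X := ⨂[k]^K V) (by omega) w
    apply hinf
    refine (Set.finite_singleton (c • LinearMap.id : (⨂[k]^K V) →ₗ[k] (⨂[k]^K V))).subset ?_
    rintro _ ⟨g, rfl⟩
    unfold cj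
    change tmap K (ρ g) ∘ₗ (c • LinearMap.id) ∘ₗ tmap K (ρ g⁻¹) = _
    rw [LinearMap.smul_comp, LinearMap.id_comp, LinearMap.comp_smul, tmap_comp_inv]
  rw [finrank_tensorPower] at h2
  have hK : 0 < K := by
    rcases Nat.eq_zero_or_pos K with h | h
    · rw [h, pow_zero] at h2; omega
    · exact h
  have hn : 2 ≤ Module.finrank k V := by
    by_contra hcon
    have h3 : Module.finrank k V ^ K ≤ 1 := pow_le_one' (by omega) K
    omega
  have hV : Nontrivial V := Module.nontrivial_of_finrank_pos (R := k) (by omega)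
  let b := Module.finBasis k ((⨂[k]^K V) →ₗ[k] (⨂[k]^K V))
  obtain ⟨j, hj⟩ : ∃ j, (Set.range fun g => b.repr (cj ρ K g w) j).Infinite := by
    by_contra hcon
    push Not at hcon
    apply hinf
    have h1 : (Set.pi Set.univ fun j => Set.range fun g => b.repr (cj ρ K g w) j).Finite :=
      Set.Finite.pi fun j => Set.not_infinite.1 (by simpa using hcon j)
    refine (h1.preimage (f := fun (x : (⨂[k]^K V) →ₗ[k] (⨂[k]^K V)) j => b.repr x j)
      fun x _ y _ hxy => ?_).subset ?_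
    · exact b.repr.injective (Finsupp.ext fun j => congrFun hxy j)
    · rintro _ ⟨g, rfl⟩
      intro j _
      exact ⟨g, rfl⟩
  let F : G → k := fun g => b.repr (cj ρ K g w) j
  have hF : Rp ρ T K F := ⟨w, hw, b.coord j, fun g => rfl⟩
  have hn1 : (1 : ℝ) < (Module.finrank k V : ℝ) ^ 2 := by
    have : (2 : ℝ) ≤ Module.finrank k V := by exact_mod_cast hn
    nlinarith
  refine log_growth (D := (Module.finrank k V : ℝ) ^ 2)
    (a := fun m => (Module.finrank k (comm ρ m) : ℝ)) hn1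
    (fun m => by exact_mod_cast comm_pos ρ m) (comm_logconvex hss) (comm_le_mul hss)
    (comm_growth hss) hK fun N m => ?_
  have h3 := lower_bound_pt hss hT (K := N * K) (F := fun i : Fin (N + 1) => F ^ (i : ℕ))
      (fun i => hF.pow hT N i (by omega)) (linearIndependent_pow hj N) m
  push_cast at h3
  exact h3

end Pool.Agent.V8H91.ZO
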