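import Pool.Agent.V8H91.ZO.Power

/-!
# Hodge classes, Tate classes and the Mumford-Tate group

Let `Y` be a smooth projective variety of dimension `d`. We fix a basis of `H^*(Y, ℚ)`, which has `n`
elements. So `GL(H^*(Y, k)) = GL_n(k)` for all fields `k` of characteristic zero, the cohomology of
`Y ^ m` is the `m`-th tensor power of `k ^ n`, its endomorphisms are the matrices whose rows and columns
are indexed by `m`-tuples, and (the endomorphisms which preserve the degrees) they are the classes in
`H ^ (2 d m) (Y ^ (2 m)) (d m)`.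
-/

namespace Pool.Agent.V8H91.ZO.MT

/-- The matrices of the linear maps from the `b`-th tensor power of `k ^ n` to the `a`-th tensor
power. -/
abbrev TMat (k : Type*) (n a b : ℕ) : Type _ := Matrix (Fin a → Fin n) (Fin b → Fin n) k

/-- The group `GL_n(k)`. -/
abbrev GLn (k : Type*) [CommRing k] (n : ℕ) : Type _ := (Matrix (Fin n) (Fin n) k)ˣ

/-- The matrix of `g ⊗ ... ⊗ g`, the `m`-th Kronecker power of `g`. -/
def kron {k : Type*} [CommRing k] {n : ℕ} (m : ℕ) (g : GLn k n) : TMat k n m m :=
  fun x y => ∏ i, g.1 (x i) (y i)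

/-- A Tate class in `End(V ^ (⊗ m))`: an endomorphism which commutes with a subgroup of finite index
of the Galois group `Γ`. -/
def IsTate {k : Type*} [CommRing k] {n : ℕ} {Γ : Type*} [Group Γ] (ρ : Γ →* GLn k n) {m : ℕ}
    (F : TMat k n m m) : Prop :=
  ∃ Δ : Subgroup Γ, Δ.FiniteIndex ∧ ∀ s ∈ Δ, kron m (ρ s) * F = F * kron m (ρ s)

/-- Hodge classes. The Hodge structure is given by the action `μ` of `ℂˣ` on `H^*(Y, ℂ)` for which `z`
acts on `H ^ {p, q}` as `z ^ p`. A rational endomorphism of a tensor power is a Hodge class if it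
commutes with `μ`, that is, preserves the Hodge decomposition. -/
def IsHodge {n : ℕ} (μ : ℂˣ →* GLn ℂ n) {m : ℕ} (f : TMat ℚ n m m) : Prop :=
  ∀ z, kron m (μ z) * f.map (algebraMap ℚ ℂ) = f.map (algebraMap ℚ ℂ) * kron m (μ z)

section

variable {k : Type*} [Field k] {n : ℕ}

theorem IsTate.add {Γ : Type*} [Group Γ] {ρ : Γ →* GLn k n} {m : ℕ} {F F' : TMat k n m m}
    (h : IsTate ρ F) (h' : IsTate ρ F') : IsTate ρ (F + F') := by
  obtain ⟨Δ, hΔ, h⟩ := h
  obtain ⟨Δ', hΔ', h'⟩ := h'
  refine ⟨Δ ⊓ Δ', inferInstance, fun s hs => ?_⟩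
  rw [Matrix.mul_add, Matrix.add_mul, h s hs.1, h' s hs.2]

theorem IsTate.zero {Γ : Type*} [Group Γ] (ρ : Γ →* GLn k n) {m : ℕ} :
    IsTate ρ (0 : TMat k n m m) :=
  ⟨⊤, inferInstance, fun s _ => by rw [Matrix.mul_zero, Matrix.zero_mul]⟩

theorem IsTate.smul {Γ : Type*} [Group Γ] {ρ : Γ →* GLn k n} {m : ℕ} {F : TMat k n m m}
    (c : k) (h : IsTate ρ F) : IsTate ρ (c • F) := by
  obtain ⟨Δ, hΔ, h⟩ := h
  exact ⟨Δ, hΔ, fun s hs => by rw [Matrix.mul_smul, Matrix.smul_mul, h s hs]⟩

/-- The space of the Tate classes in `End(V ^ (⊗ m))`. -/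
def tate {Γ : Type*} [Group Γ] (ρ : Γ →* GLn k n) (m : ℕ) : Submodule k (TMat k n m m) where
  carrier := {F | IsTate ρ F}
  add_mem' := IsTate.add
  zero_mem' := IsTate.zero ρ
  smul_mem' c _ h := IsTate.smul c h

end

variable (k : Type*) [Field k] [Algebra ℚ k] {n : ℕ} (μ : ℂˣ →* GLn ℂ n)

/-- The `k`-linear combinations of the Hodge classes in the endomorphisms of the `m`-th tensor
power. -/
def hodge (m : ℕ) : Submodule k (TMat k n m m) :=
  Submodule.span k {F | ∃ f : TMat ℚ n m m, IsHodge μ f ∧ F = f.map (algebraMap ℚ k)}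

/-- The elements `g` of the (extended) Mumford-Tate group: the automorphisms of `k ^ n` which fix all
Hodge classes on all powers. -/
def InMT (g : GLn k n) : Prop := ∀ m, ∀ F ∈ hodge k μ m, kron m g * F = F * kron m g

/-- A space of maps between tensor powers is stable under the Mumford-Tate group. -/
def Stable {a b : ℕ} (U : Submodule k (TMat k n a b)) : Prop :=
  ∀ g, InMT k μ g → ∀ f ∈ U, kron a g * f * kron b g⁻¹ ∈ U

/-- The classical facts about the Mumford-Tate group: its invariants are the Hodge classes, it is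
reductive, and it is connected. -/
structure MTFacts : Prop where
  /-- an endomorphism of a tensor power which is fixed by the group is a combination of Hodge
  classes -/
  fixed : ∀ (m : ℕ) (F : TMat k n m m), (∀ g, InMT k μ g → kron m g * F = F * kron m g) →
    F ∈ hodge k μ m
  /-- all spaces of maps between tensor powers are semisimple representations -/
  reductive : ∀ (a b : ℕ) (U : Submodule k (TMat k n a b)), Stable k μ U →
    ∃ U', Stable k μ U' ∧ IsCompl U U'
  /-- an endomorphism of a tensor power which has finitely many conjugates is fixed -/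
  connected : ∀ (m : ℕ) (F : TMat k n m m),
    {F' | ∃ g, InMT k μ g ∧ kron m g * F * kron m g⁻¹ = F'}.Finite →
    ∀ g, InMT k μ g → kron m g * F = F * kron m g

end Pool.Agent.V8H91.ZO.MT
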