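import Pool.Agent.V8H91.ZO.MTDefs
import Pool.Agent.V8H91.ZO.Law

/-!
# The zero-one law for the Mumford-Tate conjecture
-/

open TensorProduct Filter

namespace Pool.Agent.V8H91.ZO

section semisimple

variable {k : Type*} [Field k] {G : Type*} [Group G]
variable {Z : Type*} [AddCommGroup Z] [Module k Z] [Module (MonoidAlgebra k G) Z]
  [IsScalarTower k (MonoidAlgebra k G) Z]

/-- A stable subspace is a submodule. -/
def toSub (U : Submodule k Z) (hU : ∀ g, ∀ z ∈ U, rp k G Z g z ∈ U) :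
    Submodule (MonoidAlgebra k G) Z where
  carrier := U
  add_mem' := U.add_mem
  zero_mem' := U.zero_mem
  smul_mem' r z hz := by
    induction r using MonoidAlgebra.induction_on with
    | of g => exact hU g z hz
    | add r s hr hs => rw [add_smul]; exact U.add_mem hr hs
    | smul c r hr => rw [smul_assoc]; exact U.smul_mem c hr

theorem semisimple_of (h : ∀ U : Submodule k Z, (∀ g, ∀ z ∈ U, rp k G Z g z ∈ U) →
    ∃ U' : Submodule k Z, (∀ g, ∀ z ∈ U', rp k G Z g z ∈ U') ∧ IsCompl U U') :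
    IsSemisimpleModule (MonoidAlgebra k G) Z := by
  have key : ComplementedLattice (Submodule (MonoidAlgebra k G) Z) := by
   refine ⟨fun U => ?_⟩
   obtain ⟨U', hU', hc⟩ := h (U.restrictScalars k) fun g z hz => U.smul_mem _ hz
   refine ⟨toSub U' hU', ?_, ?_⟩
   · rw [Submodule.disjoint_def]
     intro x hx hx'
     exact Submodule.disjoint_def.1 hc.disjoint x hx hx'
   · rw [codisjoint_iff, eq_top_iff]
     intro x _
     have h1 : x ∈ U.restrictScalars k ⊔ U' := by rw [hc.sup_eq_top]; trivial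
     obtain ⟨y, hy, z, hz, rfl⟩ := Submodule.mem_sup.1 h1
     exact Submodule.add_mem_sup (S := U) (T := toSub U' hU') hy hz
  exact { __ := key }

variable {V : Type*} [AddCommGroup V] [Module k V]

/-- Semisimplicity of the spaces `Hom(V ^ (⊗ a), V ^ (⊗ b))`. -/
theorem ss_of [Module.Finite k V] {ρ : Representation k G V}
    (h : ∀ (a b : ℕ) (U : Submodule k ((⨂[k]^a V) →ₗ[k] (⨂[k]^b V))),
      (∀ g, ∀ f ∈ U, tmap b (ρ g) ∘ₗ f ∘ₗ tmap a (ρ g⁻¹) ∈ U) →
      ∃ U' : Submodule k ((⨂[k]^a V) →ₗ[k] (⨂[k]^b V)),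
        (∀ g, ∀ f ∈ U', tmap b (ρ g) ∘ₗ f ∘ₗ tmap a (ρ g⁻¹) ∈ U') ∧ IsCompl U U') : SS ρ := by
  intro a b
  let e : HM k G (TX ρ a) (TX ρ b) ≃ₗ[k] ((⨂[k]^a V) →ₗ[k] (⨂[k]^b V)) :=
    (hmE k G (TX ρ a) (TX ρ b)).trans
      (LinearEquiv.arrowCongr (tpow ρ a).asModuleEquiv (tpow ρ b).asModuleEquiv)
  have he : ∀ g z, e (rp k G _ g z) = tmap b (ρ g) ∘ₗ e z ∘ₗ tmap a (ρ g⁻¹) := by
    intro g z
    apply LinearMap.ext
    intro x
    simp only [e, LinearEquiv.trans_apply, LinearEquiv.arrowCongr_apply, LinearMap.comp_apply]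
    rw [hmE_rp, rp_asModule, rp_asModule, LinearEquiv.apply_symm_apply,
      LinearEquiv.apply_symm_apply]
    rfl
  refine semisimple_of fun U hU => ?_
  obtain ⟨U', hU', hc⟩ := h a b (U.map e.toLinearMap) (by
    rintro g _ ⟨z, hz, rfl⟩
    exact ⟨_, hU g z hz, he g z⟩)
  refine ⟨U'.comap e.toLinearMap, fun g z hz => ?_, ?_, ?_⟩
  · change e (rp k G _ g z) ∈ U'
    rw [he]
    exact hU' g _ hz
  · rw [Submodule.disjoint_def]
    intro x hx hx'
    have := Submodule.disjoint_def.1 hc.disjoint (e x) ⟨x, hx, rfl⟩ hx'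
    exact e.map_eq_zero_iff.1 this
  · rw [codisjoint_iff, eq_top_iff]
    intro x _
    have h1 : e x ∈ U.map e.toLinearMap ⊔ U' := by rw [hc.sup_eq_top]; trivial
    obtain ⟨_, ⟨y, hy, rfl⟩, z, hz, hyz⟩ := Submodule.mem_sup.1 h1
    refine Submodule.mem_sup.2 ⟨y, hy, e.symm z, ?_, ?_⟩
    · change e (e.symm z) ∈ U'
      rwa [LinearEquiv.apply_symm_apply]
    · apply e.injective
      rw [map_add, LinearEquiv.apply_symm_apply]
      exact hyz

end semisimple

namespace MT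

section lin

variable {k : Type*} [Field k] {V : Type*} [AddCommGroup V] [Module k V]

/-- The endomorphisms of the tensor power which commute with a subgroup of finite index. -/
def ltate {Γ : Type*} [Group Γ] (ρ : Representation k Γ V) (m : ℕ) :
    Submodule k ((⨂[k]^m V) →ₗ[k] (⨂[k]^m V)) where
  carrier := {F | ∃ Δ : Subgroup Γ, Δ.FiniteIndex ∧ ∀ s ∈ Δ,
    F ∘ₗ tmap m (ρ s) = tmap m (ρ s) ∘ₗ F}
  add_mem' := by
    rintro F F' ⟨Δ, hΔ, h⟩ ⟨Δ', hΔ', h'⟩
    refine ⟨Δ ⊓ Δ', inferInstance, fun s hs => ?_⟩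
    rw [LinearMap.add_comp, LinearMap.comp_add, h s hs.1, h' s hs.2]
  zero_mem' := ⟨⊤, inferInstance, fun s _ => by rw [LinearMap.zero_comp, LinearMap.comp_zero]⟩
  smul_mem' := by
    rintro c F ⟨Δ, hΔ, h⟩
    exact ⟨Δ, hΔ, fun s hs => by rw [LinearMap.smul_comp, LinearMap.comp_smul, h s hs]⟩

/-- These endomorphisms are a closed system for every group whose invariants are among them. -/
theorem closed_ltate [Module.Finite k V] {Γ : Type*} [Group Γ] {G : Type*} [Group G]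
    (ρ : Representation k Γ V) (σ : Representation k G V)
    (h : ∀ m, comm σ m ≤ ltate ρ m) : Closed σ (ltate ρ) := by
  refine ⟨h, ?_, ?_⟩
  · rintro a b w w' ⟨Δ, hΔ, hw⟩ ⟨Δ', hΔ', hw'⟩
    refine ⟨Δ ⊓ Δ', inferInstance, fun s hs => ?_⟩
    rw [← cj_eq_iff, cj_prodE, (cj_eq_iff ρ a s w).2 (hw s hs.1),
      (cj_eq_iff ρ b s w').2 (hw' s hs.2)]
  · rintro a b F w hF ⟨Δ', hΔ', hw⟩
    obtain ⟨Δ, hΔ, hF'⟩ := h _ hF
    refine ⟨Δ ⊓ Δ', inferInstance, fun s hs => ?_⟩
    rw [← cj_eq_iff, cj_ptr, (cj_eq_iff ρ (a + b) s F).2 (hF' s hs.1),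
      (cj_eq_iff ρ a s w).2 (hw s hs.2)]

end lin

section matrices

variable {k : Type*} [Field k] {n : ℕ}

/-- The basis of the tensor power. -/
noncomputable def bs (k : Type*) [Field k] (n m : ℕ) :
    Module.Basis (Fin m → Fin n) k (⨂[k]^m (Fin n → k)) :=
  Basis.piTensorProduct fun _ : Fin m => Pi.basisFun k (Fin n)

/-- The matrix of a linear map between tensor powers. -/
noncomputable def mat (k : Type*) [Field k] (n a b : ℕ) :
    ((⨂[k]^b (Fin n → k)) →ₗ[k] (⨂[k]^a (Fin n → k))) ≃ₗ[k] TMat k n a b :=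
  LinearMap.toMatrix (bs k n b) (bs k n a)

theorem mat_comp {a b c : ℕ} (f : (⨂[k]^b (Fin n → k)) →ₗ[k] (⨂[k]^a (Fin n → k)))
    (g : (⨂[k]^c (Fin n → k)) →ₗ[k] (⨂[k]^b (Fin n → k))) :
    mat k n a c (f ∘ₗ g) = mat k n a b f * mat k n b c g :=
  LinearMap.toMatrix_comp _ _ _ f g

/-- The linear map given by a matrix. -/
noncomputable def lin (g : GLn k n) : (Fin n → k) →ₗ[k] (Fin n → k) := Matrix.toLin' g.1

theorem mat_tmap (m : ℕ) (g : GLn k n) : mat k n m m (tmap m (lin g)) = kron m g := by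
  ext x y
  rw [mat, LinearMap.toMatrix_apply, bs, Basis.piTensorProduct_apply, tmap,
    PiTensorProduct.map_tprod, Basis.piTensorProduct_repr_tprod_apply]
  refine Finset.prod_congr rfl fun i _ => ?_
  rw [Pi.basisFun_repr, Pi.basisFun_apply, lin, Matrix.toLin'_apply, Matrix.mulVec_single_one]
  rfl

/-- The representation given by matrices. -/
noncomputable def repn {G : Type*} [Group G] (ρ : G →* GLn k n) :
    Representation k G (Fin n → k) where
  toFun g := lin (ρ g)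
  map_one' := by rw [map_one]; exact Matrix.toLin'_one
  map_mul' g h := by rw [map_mul]; exact Matrix.toLin'_mul _ _

theorem mat_repn {G : Type*} [Group G] (ρ : G →* GLn k n) (m : ℕ) (g : G) :
    mat k n m m (tmap m (repn ρ g)) = kron m (ρ g) := mat_tmap m (ρ g)

theorem commute_iff {m : ℕ} (F : (⨂[k]^m (Fin n → k)) →ₗ[k] (⨂[k]^m (Fin n → k)))
    {G : Type*} [Group G] (ρ : G →* GLn k n) (g : G) :
    F ∘ₗ tmap m (repn ρ g) = tmap m (repn ρ g) ∘ₗ F ↔
      kron m (ρ g) * mat k n m m F = mat k n m m F * kron m (ρ g) := by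
  rw [← mat_repn ρ m g, ← mat_comp, ← mat_comp, (mat k n m m).injective.eq_iff]
  exact eq_comm

theorem mem_ltate {m : ℕ} (F : (⨂[k]^m (Fin n → k)) →ₗ[k] (⨂[k]^m (Fin n → k)))
    {Γ : Type*} [Group Γ] (ρ : Γ →* GLn k n) :
    F ∈ ltate (repn ρ) m ↔ mat k n m m F ∈ tate ρ m := by
  constructor
  · rintro ⟨Δ, hΔ, h⟩
    exact ⟨Δ, hΔ, fun s hs => (commute_iff F ρ s).1 (h s hs)⟩
  · rintro ⟨Δ, hΔ, h⟩
    exact ⟨Δ, hΔ, fun s hs => (commute_iff F ρ s).2 (h s hs)⟩

theorem finrank_eq_of {m : ℕ} {A : Submodule k ((⨂[k]^m (Fin n → k)) →ₗ[k] (⨂[k]^m (Fin n → k)))}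
    {B : Submodule k (TMat k n m m)} (h : ∀ F, F ∈ A ↔ mat k n m m F ∈ B) :
    Module.finrank k A = Module.finrank k B := by
  have h1 : A.map (mat k n m m).toLinearMap = B := by
    ext F
    constructor
    · rintro ⟨F, hF, rfl⟩
      exact (h F).1 hF
    · intro hF
      refine ⟨(mat k n m m).symm F, (h _).2 ?_, ?_⟩
      · rwa [LinearEquiv.apply_symm_apply]
      · exact LinearEquiv.apply_symm_apply _ _
  rw [← h1]
  exact (LinearEquiv.finrank_map_eq (mat k n m m) A).symm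

end matrices

variable {k : Type*} [Field k] [Algebra ℚ k] {n : ℕ} {μ : ℂˣ →* GLn ℂ n}

theorem kron_one (m : ℕ) : kron m (1 : GLn k n) = 1 := by
  rw [← mat_tmap m 1, lin, Units.val_one, Matrix.toLin'_one]
  change mat k n m m (tmap m (1 : (Fin n → k) →ₗ[k] (Fin n → k))) = 1
  rw [tmap_one]
  exact LinearMap.toMatrix_one _

theorem kron_mul (m : ℕ) (g h : GLn k n) : kron m (g * h) = kron m g * kron m h := by
  rw [← mat_tmap m g, ← mat_tmap m h, ← mat_comp, ← mat_tmap m (g * h), lin, Units.val_mul,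
    Matrix.toLin'_mul]
  congr 1
  exact tmap_mul m (lin g) (lin h)

theorem InMT.one : InMT k μ 1 := by
  intro m F _
  rw [kron_one, Matrix.one_mul, Matrix.mul_one]

theorem InMT.mul {g h : GLn k n} (hg : InMT k μ g) (hh : InMT k μ h) : InMT k μ (g * h) := by
  intro m F hF
  rw [kron_mul, Matrix.mul_assoc, hh m F hF, ← Matrix.mul_assoc, hg m F hF, Matrix.mul_assoc]

theorem InMT.inv {g : GLn k n} (hg : InMT k μ g) : InMT k μ g⁻¹ := by
  intro m F hF
  have h1 : kron m g⁻¹ * kron m g = 1 := by rw [← kron_mul, inv_mul_cancel, kron_one]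
  have h2 : kron m g * kron m g⁻¹ = 1 := by rw [← kron_mul, mul_inv_cancel, kron_one]
  calc kron m g⁻¹ * F = kron m g⁻¹ * F * (kron m g * kron m g⁻¹) := by rw [h2, Matrix.mul_one]
    _ = kron m g⁻¹ * (F * kron m g) * kron m g⁻¹ := by simp only [Matrix.mul_assoc]
    _ = (kron m g⁻¹ * kron m g) * F * kron m g⁻¹ := by
        rw [← hg m F hF]; simp only [Matrix.mul_assoc]
    _ = F * kron m g⁻¹ := by rw [h1, Matrix.one_mul]

variable (k μ) in
/-- The (extended) Mumford-Tate group. -/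
def MTG : Subgroup (GLn k n) where
  carrier := {g | InMT k μ g}
  one_mem' := InMT.one
  mul_mem' := InMT.mul
  inv_mem' := InMT.inv

/-- **The zero-one law.** -/
theorem main (hμ : MTFacts k μ) {Γ : Type*} [Group Γ]
    (ρ : Γ →* GLn k n) (h : ∀ m, hodge k μ m ≤ tate ρ m) :
    (∀ m, hodge k μ m = tate ρ m) ∨ ∃ c : ℝ, 0 < c ∧ ∀ᶠ m : ℕ in atTop,
      c * Real.log m * Module.finrank k (hodge k μ m) ≤ Module.finrank k (tate ρ m) := by
  let τ : MTG k μ →* GLn k n := (MTG k μ).subtype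
  let σ : Representation k (MTG k μ) (Fin n → k) := repn τ
  have hc : ∀ m F, F ∈ comm σ m ↔ mat k n m m F ∈ hodge k μ m := by
    intro m F
    constructor
    · intro hF
      exact hμ.fixed m _ fun g hg => (commute_iff F τ ⟨g, hg⟩).1 (hF ⟨g, hg⟩)
    · intro hF g
      exact (commute_iff F τ g).2 (g.2 m _ hF)
  have hmat : ∀ (a b : ℕ) (g : MTG k μ) (f : (⨂[k]^b (Fin n → k)) →ₗ[k] (⨂[k]^a (Fin n → k))),
      mat k n a b (tmap a (σ g) ∘ₗ f ∘ₗ tmap b (σ g⁻¹)) =
        kron a g.1 * mat k n a b f * kron b g.1⁻¹ := by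
    intro a b g f
    rw [mat_comp, mat_comp, mat_repn τ a g, mat_repn τ b g⁻¹, ← Matrix.mul_assoc]
    rfl
  have hss : SS σ := by
    refine ss_of fun b a U hU => ?_
    obtain ⟨U', hU', hcompl⟩ := hμ.reductive a b (U.map (mat k n a b).toLinearMap) (by
      rintro g hg _ ⟨f, hf, rfl⟩
      exact ⟨_, hU ⟨g, hg⟩ f hf, hmat a b ⟨g, hg⟩ f⟩)
    refine ⟨U'.comap (mat k n a b).toLinearMap, fun g f hf => ?_, ?_⟩
    · change mat k n a b _ ∈ U'
      rw [hmat a b g f]
      exact hU' g.1 g.2 _ hf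
    · constructor
      · rw [Submodule.disjoint_def]
        intro x hx hx'
        have := Submodule.disjoint_def.1 hcompl.disjoint (mat k n a b x) ⟨x, hx, rfl⟩ hx'
        exact (mat k n a b).map_eq_zero_iff.1 this
      · rw [codisjoint_iff, eq_top_iff]
        intro x _
        have h1 : mat k n a b x ∈ U.map (mat k n a b).toLinearMap ⊔ U' := by
          rw [hcompl.sup_eq_top]; trivial
        obtain ⟨_, ⟨y, hy, rfl⟩, z, hz, hyz⟩ := Submodule.mem_sup.1 h1
        refine Submodule.mem_sup.2 ⟨y, hy, (mat k n a b).symm z, ?_, ?_⟩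
        · change mat k n a b ((mat k n a b).symm z) ∈ U'
          rwa [LinearEquiv.apply_symm_apply]
        · apply (mat k n a b).injective
          rw [map_add, LinearEquiv.apply_symm_apply]
          exact hyz
  have hT : Closed σ (ltate (repn ρ)) :=
    closed_ltate (repn ρ) σ fun m F hF => (mem_ltate F ρ).2 (h m ((hc m F).1 hF))
  by_cases hall : ∀ m, tate ρ m ≤ hodge k μ m
  · exact Or.inl fun m => le_antisymm (h m) (hall m)
  · right
    push Not at hall
    obtain ⟨K, hK⟩ := hall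
    obtain ⟨w, hw, hw'⟩ := Set.not_subset.1 hK
    let w0 := (mat k n K K).symm w
    have hw0 : mat k n K K w0 = w := LinearEquiv.apply_symm_apply _ _
    have hinf : (Set.range fun g => cj σ K g w0).Infinite := by
      intro hfin
      apply hw'
      rw [SetLike.mem_coe]
      refine hμ.fixed K w (hμ.connected K w ((hfin.image (mat k n K K)).subset ?_))
      rintro _ ⟨g, hg, rfl⟩
      refine ⟨_, ⟨⟨g, hg⟩, rfl⟩, ?_⟩
      change mat k n K K (tmap K (σ ⟨g, hg⟩) ∘ₗ w0 ∘ₗ tmap K (σ (⟨g, hg⟩ : MTG k μ)⁻¹)) = _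
      rw [hmat K K ⟨g, hg⟩ w0, hw0]
    have hwT : w0 ∈ ltate (repn ρ) K := by
      rw [mem_ltate, hw0]
      exact hw
    obtain ⟨c, hc0, hev⟩ := zero_one hss hT hwT hinf
    refine ⟨c, hc0, ?_⟩
    filter_upwards [hev] with m hm
    rw [← finrank_eq_of (hc m), ← finrank_eq_of (A := ltate (repn ρ) m) fun F => mem_ltate F ρ]
    exact hm

end MT

end Pool.Agent.V8H91.ZO
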