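import Mathlib

/-!
# Linear maps between endomorphism algebras and endomorphisms of the tensor product
-/

open TensorProduct

namespace Pool.Agent.V8H91.ZO

variable (k : Type*) [Field k] (A : Type*) [AddCommGroup A] [Module k A] [Module.Finite k A]
  (B : Type*) [AddCommGroup B] [Module k B] [Module.Finite k B]

/-- `f ↦ (w ↦ tr (f w))`. -/
noncomputable def trD0 : (A →ₗ[k] A) →ₗ[k] Module.Dual k (A →ₗ[k] A) :=
  LinearMap.mk₂ k (fun f w => LinearMap.trace k A (f ∘ₗ w)) (fun f f' w => by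
    rw [LinearMap.add_comp, map_add]) (fun c f w => by rw [LinearMap.smul_comp, map_smul])
    (fun f w w' => by rw [LinearMap.comp_add, map_add])
    (fun c f w => by rw [LinearMap.comp_smul, map_smul])

theorem trD0_injective : Function.Injective (trD0 k A) := by
  rw [injective_iff_map_eq_zero]
  intro f hf
  ext x
  rw [LinearMap.zero_apply]
  refine (Module.forall_dual_apply_eq_zero_iff k (f x)).1 fun φ => ?_
  have h1 : LinearMap.trace k A (f ∘ₗ (φ.smulRight x)) = 0 := LinearMap.congr_fun hf _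
  have h2 : f ∘ₗ (φ.smulRight x) = φ.smulRight (f x) := by
    ext y
    simp
  rw [h2] at h1
  have h3 : φ.smulRight (f x) = dualTensorHom k A A (φ ⊗ₜ f x) := by
    ext y
    simp
  rw [h3, LinearMap.trace_eq_contract_apply] at h1
  simpa using h1

/-- The trace form identifies the endomorphism algebra with its dual. -/
noncomputable def trD : (A →ₗ[k] A) ≃ₗ[k] Module.Dual k (A →ₗ[k] A) :=
  LinearEquiv.ofBijective (trD0 k A) ⟨trD0_injective k A,
    (LinearMap.injective_iff_surjective_of_finrank_eq_finrank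
      (Subspace.dual_finrank_eq).symm).1 (trD0_injective k A)⟩

theorem trD_apply (f w : A →ₗ[k] A) : trD k A f w = LinearMap.trace k A (f ∘ₗ w) := rfl

/-- The linear map `End(A) → End(B)` given by an endomorphism of `A ⊗ B`: multiplication and
partial trace. -/
noncomputable def Th : (A ⊗[k] B →ₗ[k] A ⊗[k] B) ≃ₗ[k] ((A →ₗ[k] A) →ₗ[k] (B →ₗ[k] B)) :=
  (homTensorHomEquiv k A B A B).symm.trans ((TensorProduct.congr (trD k A)
    (LinearEquiv.refl k (B →ₗ[k] B))).trans (dualTensorHomEquiv k (A →ₗ[k] A) (B →ₗ[k] B)))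

theorem Th_map (f : A →ₗ[k] A) (h : B →ₗ[k] B) (w : A →ₗ[k] A) :
    Th k A B (TensorProduct.map f h) w = LinearMap.trace k A (f ∘ₗ w) • h := by
  have h1 : TensorProduct.map f h = homTensorHomEquiv k A B A B (f ⊗ₜ h) := by
    rw [homTensorHomEquiv_apply, homTensorHomMap_apply]
  rw [h1]
  unfold Th
  simp only [LinearEquiv.trans_apply, LinearEquiv.symm_apply_apply, TensorProduct.congr_tmul,
    LinearEquiv.refl_apply]
  exact dualTensorHom_apply _ _ _

/-- Induction for endomorphisms of the tensor product. -/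
theorem end_ind {P : (A ⊗[k] B →ₗ[k] A ⊗[k] B) → Prop} (h0 : P 0)
    (h1 : ∀ f h, P (TensorProduct.map f h)) (h2 : ∀ x y, P x → P y → P (x + y)) (T) : P T := by
  obtain ⟨z, rfl⟩ := (homTensorHomEquiv k A B A B).surjective T
  induction z using TensorProduct.induction_on with
  | zero => simpa using h0
  | tmul f h =>
    rw [homTensorHomEquiv_apply, homTensorHomMap_apply]
    exact h1 f h
  | add a b ha hb => rw [map_add]; exact h2 _ _ ha hb

variable {k A B}

/-- `Th` is natural. -/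
theorem Th_conj (α α' : A →ₗ[k] A) (β β' : B →ₗ[k] B) (hα : α' ∘ₗ α = LinearMap.id)
    (T : A ⊗[k] B →ₗ[k] A ⊗[k] B) (w : A →ₗ[k] A) :
    Th k A B (TensorProduct.map α β ∘ₗ T ∘ₗ TensorProduct.map α' β') (α ∘ₗ w ∘ₗ α') =
      β ∘ₗ (Th k A B T w) ∘ₗ β' := by
  induction T using end_ind with
  | h0 => simp
  | h1 f h =>
    rw [← TensorProduct.map_comp, ← TensorProduct.map_comp, Th_map, Th_map]
    have h1 : (α ∘ₗ f ∘ₗ α') ∘ₗ α ∘ₗ w ∘ₗ α' = α ∘ₗ ((f ∘ₗ w) ∘ₗ α') := by
      have h2 : (α ∘ₗ f ∘ₗ α') ∘ₗ α ∘ₗ w ∘ₗ α' = α ∘ₗ f ∘ₗ (α' ∘ₗ α) ∘ₗ w ∘ₗ α' := by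
        simp only [LinearMap.comp_assoc]
      rw [h2, hα, LinearMap.id_comp]
      simp only [LinearMap.comp_assoc]
    rw [h1, LinearMap.trace_comp_comm', LinearMap.comp_assoc, hα, LinearMap.comp_id]
    ext b
    simp
  | h2 x y hx hy =>
    rw [LinearMap.add_comp, LinearMap.comp_add, map_add, map_add, LinearMap.add_apply, hx, hy,
      LinearMap.add_apply, LinearMap.add_comp, LinearMap.comp_add]

end Pool.Agent.V8H91.ZO
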