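import Pool.Agent.V8H91.ZO.Alg
import Pool.Agent.V8H91.ZO.Theta

/-!
# The tensor powers of a representation
-/

open Finset TensorProduct Filter Topology

namespace Pool.Agent.V8H91.ZO

variable {k : Type*} [Field k] {V : Type*} [AddCommGroup V] [Module k V]
  {G : Type*} [Group G]

/-- The operator `f ⊗ ... ⊗ f` on the tensor power. -/
noncomputable def tmap (m : ℕ) (f : V →ₗ[k] V) : (⨂[k]^m V) →ₗ[k] (⨂[k]^m V) :=
  PiTensorProduct.map fun _ : Fin m => f

theorem tmap_one (m : ℕ) : tmap m (1 : V →ₗ[k] V) = 1 := PiTensorProduct.map_one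

theorem tmap_mul (m : ℕ) (f g : V →ₗ[k] V) : tmap m (f * g) = tmap m f * tmap m g :=
  PiTensorProduct.map_mul (fun _ : Fin m => f) (fun _ : Fin m => g)

/-- The action on the tensor power. -/
noncomputable def tpow (ρ : Representation k G V) (m : ℕ) : Representation k G (⨂[k]^m V) where
  toFun g := tmap m (ρ g)
  map_one' := by rw [map_one, tmap_one]
  map_mul' g h := by rw [map_mul, tmap_mul]

theorem tpow_apply (ρ : Representation k G V) (m : ℕ) (g : G) : tpow ρ m g = tmap m (ρ g) := rfl

/-- The tensor power as a module. -/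
abbrev TX (ρ : Representation k G V) (m : ℕ) := (tpow ρ m).asModule

/-- The product of tensor powers. -/
noncomputable def mulE (k : Type*) [Field k] (V : Type*) [AddCommGroup V] [Module k V] (a b : ℕ) :
    (⨂[k]^a V) ⊗[k] (⨂[k]^b V) ≃ₗ[k] (⨂[k]^(a + b) V) := TensorPower.mulEquiv

theorem mulE_tprod (a b : ℕ) (x : Fin a → V) (y : Fin b → V) :
    mulE k V a b (PiTensorProduct.tprod k x ⊗ₜ PiTensorProduct.tprod k y) =
      PiTensorProduct.tprod k (Fin.append x y) :=
  TensorPower.tprod_mul_tprod k x y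

theorem mulE_map (a b : ℕ) (f : V →ₗ[k] V) (z : (⨂[k]^a V) ⊗[k] (⨂[k]^b V)) :
    mulE k V a b (TensorProduct.map (tmap a f) (tmap b f) z) =
      tmap (a + b) f (mulE k V a b z) := by
  have h : (mulE k V a b).toLinearMap ∘ₗ TensorProduct.map (tmap a f) (tmap b f) =
      tmap (a + b) f ∘ₗ (mulE k V a b).toLinearMap := by
    apply TensorProduct.ext
    apply PiTensorProduct.ext
    apply MultilinearMap.ext
    intro x
    apply PiTensorProduct.ext
    apply MultilinearMap.ext
    intro y
    change mulE k V a b (tmap a f (PiTensorProduct.tprod k x) ⊗ₜ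
      tmap b f (PiTensorProduct.tprod k y)) =
      tmap (a + b) f (mulE k V a b (PiTensorProduct.tprod k x ⊗ₜ PiTensorProduct.tprod k y))
    rw [mulE_tprod]
    unfold tmap
    rw [PiTensorProduct.map_tprod, PiTensorProduct.map_tprod, PiTensorProduct.map_tprod,
      mulE_tprod]
    congr 1
    funext i
    refine Fin.addCases (fun i => ?_) (fun i => ?_) i
    · simp
    · simp
  exact LinearMap.congr_fun h z

/-- The product of tensor powers, as an isomorphism of modules. -/
noncomputable def isoX (ρ : Representation k G V) (a b : ℕ) :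
    TP k G (TX ρ a) (TX ρ b) ≃ₗ[MonoidAlgebra k G] TX ρ (a + b) :=
  mkE ((tpE k G (TX ρ a) (TX ρ b)).trans ((TensorProduct.congr (tpow ρ a).asModuleEquiv
    (tpow ρ b).asModuleEquiv).trans ((mulE k V a b).trans
      (tpow ρ (a + b)).asModuleEquiv.symm))) (by
    intro g z
    induction z using TP.ind with
    | h0 => simp
    | h2 x y hx hy => simp only [map_add, hx, hy]
    | h1 x y =>
      rw [rp_tp]
      simp only [LinearEquiv.trans_apply, LinearEquiv.apply_symm_apply,
        TensorProduct.congr_tmul]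
      rw [rp_asModule, rp_asModule, rp_asModule]
      simp only [LinearEquiv.apply_symm_apply]
      congr 1
      rw [tpow_apply, tpow_apply, tpow_apply, ← mulE_map, TensorProduct.map_tmul])

/-- The endomorphisms of the tensor power which commute with the group. -/
def comm (ρ : Representation k G V) (m : ℕ) : Submodule k ((⨂[k]^m V) →ₗ[k] (⨂[k]^m V)) where
  carrier := {F | ∀ g, F ∘ₗ tmap m (ρ g) = tmap m (ρ g) ∘ₗ F}
  add_mem' {F F'} h h' g := by rw [LinearMap.add_comp, LinearMap.comp_add, h g, h' g]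
  zero_mem' g := by simp
  smul_mem' c F h g := by rw [LinearMap.smul_comp, LinearMap.comp_smul, h g]

/-- The endomorphisms of the module are the commuting endomorphisms. -/
noncomputable def endE (ρ : Representation k G V) (m : ℕ) :
    (TX ρ m →ₗ[MonoidAlgebra k G] TX ρ m) ≃ₗ[k] comm ρ m where
  toFun φ := ⟨(tpow ρ m).asModuleEquiv.toLinearMap ∘ₗ (toK k (MonoidAlgebra k G) φ) ∘ₗ
    (tpow ρ m).asModuleEquiv.symm.toLinearMap, fun g => by
      ext1
      ext x
      change (tpow ρ m).asModuleEquiv (φ ((tpow ρ m).asModuleEquiv.symm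
        (tmap m (ρ g) (PiTensorProduct.tprod k x)))) = tmap m (ρ g) ((tpow ρ m).asModuleEquiv
        (φ ((tpow ρ m).asModuleEquiv.symm (PiTensorProduct.tprod k x))))
      rw [← tpow_apply, Representation.asModuleEquiv_symm_map_rho, φ.map_smul,
        ← rp_apply, rp_asModule, LinearEquiv.apply_symm_apply]⟩
  invFun F := mkR ((tpow ρ m).asModuleEquiv.symm.toLinearMap ∘ₗ F.1 ∘ₗ
    (tpow ρ m).asModuleEquiv.toLinearMap) fun g x => by
      rw [rp_asModule, rp_asModule]
      simp only [LinearMap.comp_apply, LinearEquiv.coe_coe, LinearEquiv.apply_symm_apply]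
      congr 1
      exact LinearMap.congr_fun (F.2 g) _
  map_add' φ ψ := rfl
  map_smul' c φ := rfl
  left_inv φ := by ext x; rfl
  right_inv F := by
    apply Subtype.ext
    rfl

theorem hd_TX (ρ : Representation k G V) (m : ℕ) :
    hd k (MonoidAlgebra k G) (TX ρ m) (TX ρ m) = Module.finrank k (comm ρ m) :=
  (endE ρ m).finrank_eq

theorem hd_TP_TX (ρ : Representation k G V) (a b : ℕ) :
    hd k (MonoidAlgebra k G) (TP k G (TX ρ a) (TX ρ b)) (TP k G (TX ρ a) (TX ρ b)) =
      Module.finrank k (comm ρ (a + b)) := by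
  rw [hd_congr (isoX ρ a b) (isoX ρ a b), hd_TX]

variable [Module.Finite k V]

theorem finrank_TX (ρ : Representation k G V) (m : ℕ) :
    Module.finrank k (TX ρ m) = Module.finrank k V ^ m := finrank_tensorPower k V m

/-- All `Hom(V ^ (⊗ a), V ^ (⊗ b))` are semisimple. -/
def SS (ρ : Representation k G V) : Prop :=
  ∀ a b, IsSemisimpleModule (MonoidAlgebra k G) (HM k G (TX ρ a) (TX ρ b))

theorem semisimple_TX {ρ : Representation k G V} (h : SS ρ) (m : ℕ) :
    IsSemisimpleModule (MonoidAlgebra k G) (TX ρ m) := by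
  have := h 0 m
  let e0 : TX ρ 0 := (tpow ρ 0).asModuleEquiv.symm (PiTensorProduct.tprod k Fin.elim0)
  have he : ∀ g, rp k G (TX ρ 0) g e0 = e0 := by
    intro g
    rw [rp_asModule, LinearEquiv.apply_symm_apply, tpow_apply]
    unfold tmap
    rw [PiTensorProduct.map_tprod]
    congr 2
    funext i
    exact i.elim0
  have hne : e0 ≠ 0 := by
    intro h0
    have h1 : (PiTensorProduct.tprod k Fin.elim0 : ⨂[k]^0 V) = 0 := by
      have := congrArg (tpow ρ 0).asModuleEquiv h0
      simpa [e0] using this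
    have h2 := congrArg (TensorPower.algebraMap₀ (R := k) (M := V)).symm h1
    have h3 := TensorPower.algebraMap₀_one (R := k) (M := V)
    rw [TensorPower.gOne_def] at h3
    rw [← h3, LinearEquiv.symm_apply_apply, map_zero] at h2
    exact one_ne_zero h2
  let F : HM k G (TX ρ 0) (TX ρ m) →ₗ[MonoidAlgebra k G] TX ρ m :=
    mkR ((LinearMap.applyₗ e0) ∘ₗ (hmE k G (TX ρ 0) (TX ρ m)).toLinearMap) fun g f => by
      simp only [LinearMap.comp_apply, LinearEquiv.coe_coe, LinearMap.applyₗ_apply_apply]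
      rw [hmE_rp, he g⁻¹]
  refine IsSemisimpleModule.of_surjective F fun x => ?_
  obtain ⟨ψ, hψ⟩ : ∃ ψ : Module.Dual k (TX ρ 0), ψ e0 ≠ 0 := by
    by_contra hcon
    push Not at hcon
    exact hne ((Module.forall_dual_apply_eq_zero_iff k e0).1 hcon)
  refine ⟨(hmE k G (TX ρ 0) (TX ρ m)).symm (ψ.smulRight ((ψ e0)⁻¹ • x)), ?_⟩
  have hF : ∀ z, F z = hmE k G (TX ρ 0) (TX ρ m) z e0 := fun z => rfl
  rw [hF, LinearEquiv.apply_symm_apply, LinearMap.smulRight_apply, smul_smul,
    mul_inv_cancel₀ hψ, one_smul]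

theorem semisimple_HM_TP {ρ : Representation k G V} (h : SS ρ) (a b c : ℕ) :
    IsSemisimpleModule (MonoidAlgebra k G) (HM k G (TX ρ a) (TP k G (TX ρ b) (TX ρ c))) := by
  have := h a (b + c)
  exact IsSemisimpleModule.of_injective (mapHM LinearMap.id (isoX ρ b c).toLinearMap)
    (mapHM_injective _ _ Function.surjective_id (isoX ρ b c).injective)

theorem comm_pos [Nontrivial V] (ρ : Representation k G V) (m : ℕ) :
    0 < Module.finrank k (comm ρ m) := by
  have h0 : 0 < Module.finrank k (⨂[k]^m V) := by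
    rw [finrank_tensorPower]
    exact pow_pos (Module.finrank_pos (R := k) (M := V)) m
  have this : Nontrivial (⨂[k]^m V) := Module.nontrivial_of_finrank_pos (R := k) h0
  have this' : Nontrivial (comm ρ m) := by
    refine ⟨⟨⟨LinearMap.id, fun g => by rw [LinearMap.id_comp, LinearMap.comp_id]⟩, 0, fun h => ?_⟩⟩
    obtain ⟨x, hx⟩ := @exists_ne (⨂[k]^m V) this 0
    exact hx (LinearMap.congr_fun (congrArg Subtype.val h) x)
  exact Module.finrank_pos (R := k) (M := comm ρ m)

/-- The dimensions of the commutants are log-convex. -/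
theorem comm_logconvex {ρ : Representation k G V} (h : SS ρ) (m : ℕ) :
    (Module.finrank k (comm ρ (m + 1)) : ℝ) ^ 2 ≤
      Module.finrank k (comm ρ m) * Module.finrank k (comm ρ (m + 2)) := by
  have s1 := semisimple_TX h m
  have s2 := h 1 (m + 1)
  have h1 := hd_sq_le (k := k) (R := MonoidAlgebra k G) (X := TX ρ m)
    (Y := HM k G (TX ρ 1) (TX ρ (m + 1)))
  rw [hd_HM_self, hd_TP_TX, hd_TX, hd_HM, ← hd_TP,
    hd_congr (isoX ρ m 1) (LinearEquiv.refl _ _), hd_TX,
    show 1 + (m + 1) = m + 2 by ring] at h1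
  exact h1

theorem comm_le_mul {ρ : Representation k G V} (h : SS ρ) (m : ℕ) :
    (Module.finrank k (comm ρ (m + 1)) : ℝ) ≤
      (Module.finrank k V : ℝ) ^ 2 * Module.finrank k (comm ρ m) := by
  have s1 := semisimple_TX h m
  have s2 := semisimple_HM_TP h 1 1 m
  have h1 := bil_le_of_surjective (Q := HM k G (TX ρ 1) (TX ρ 1)) (X := TX ρ m)
    (semisimple_TP_HM s2) (semisimple_HM_HM s2) LinearMap.id Function.surjective_id
  rw [← hd_HM, hd_HM_HM, hd_TP_TX, hd_TX, finrank_HM, finrank_TX, pow_one,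
    show 1 + m = m + 1 by ring] at h1
  push_cast at h1
  rw [pow_two]
  exact h1

theorem comm_growth {ρ : Representation k G V} (h : SS ρ) (m : ℕ) :
    ((Module.finrank k V : ℝ) ^ 2) ^ m ≤
      Module.finrank k (comm ρ m) * ((m : ℝ) + 1) ^ (Module.finrank k V) ^ 2 := by
  have s1 := semisimple_TX h m
  obtain ⟨U, hU, hU'⟩ := exists_powers k V m
  have h1 := sq_finrank_le (k := k) (R := MonoidAlgebra k G) (X := TX ρ m)
    (Module.finBasis k (TX ρ m))
  have h2 := finrank_span_le (tpow ρ m) U (fun g => hU (ρ g)) (Module.finBasis k (TX ρ m))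
  have h3 : (Module.finrank k (Submodule.span (MonoidAlgebra k G)
      {(Module.finBasis k (TX ρ m) : _ → TX ρ m)}) : ℝ) ≤
      ((m : ℝ) + 1) ^ (Module.finrank k V) ^ 2 := by
    exact_mod_cast h2.trans hU'
  rw [hd_TX] at h1
  have h4 : ((Module.finrank k V : ℝ) ^ 2) ^ m = (Module.finrank k (TX ρ m) : ℝ) ^ 2 := by
    rw [finrank_TX]
    push_cast
    ring
  rw [h4]
  exact h1.trans (mul_le_mul_of_nonneg_left h3 (by positivity))

end Pool.Agent.V8H91.ZO
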