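import Pool.Agent.V8H91.ZO.Ineq

/-!
# Tensor products and spaces of linear maps of modules over a group algebra
-/

open Finset TensorProduct

namespace Pool.Agent.V8H91.ZO

universe u

variable (k : Type*) [Field k] (G : Type*) [Group G]

section basic

variable (X : Type*) [AddCommGroup X] [Module k X] [Module (MonoidAlgebra k G) X]
  [IsScalarTower k (MonoidAlgebra k G) X]

/-- The representation given by a module over the group algebra. -/
noncomputable def rp : Representation k G X := Representation.ofModule' X

variable {X} in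
theorem rp_apply (g : G) (x : X) : rp k G X g x = MonoidAlgebra.of k G g • x := rfl

variable {k G X}
variable {Y : Type*} [AddCommGroup Y] [Module k Y] [Module (MonoidAlgebra k G) Y]
  [IsScalarTower k (MonoidAlgebra k G) Y]

theorem map_rp (f : X →ₗ[MonoidAlgebra k G] Y) (g : G) (x : X) :
    f (rp k G X g x) = rp k G Y g (f x) := by
  rw [rp_apply, rp_apply, f.map_smul]

theorem rp_asModule {V : Type*} [AddCommGroup V] [Module k V] (ρ : Representation k G V) (g : G)
    (x : ρ.asModule) : rp k G ρ.asModule g x = ρ.asModuleEquiv.symm (ρ g (ρ.asModuleEquiv x)) := by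
  rw [rp_apply, Representation.asModuleEquiv_symm_map_rho]
  exact congrArg _ (LinearEquiv.symm_apply_apply ρ.asModuleEquiv x).symm

/-- A `k`-linear equivariant map is linear over the group algebra. -/
noncomputable def mkR (f : X →ₗ[k] Y) (h : ∀ g x, f (rp k G X g x) = rp k G Y g (f x)) :
    X →ₗ[MonoidAlgebra k G] Y :=
  MonoidAlgebra.equivariantOfLinearOfComm f h

theorem mkR_apply (f : X →ₗ[k] Y) (h : ∀ g x, f (rp k G X g x) = rp k G Y g (f x)) (x : X) :
    mkR f h x = f x := rfl

/-- A `k`-linear equivariant equivalence is linear over the group algebra. -/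
noncomputable def mkE (f : X ≃ₗ[k] Y) (h : ∀ g x, f (rp k G X g x) = rp k G Y g (f x)) :
    X ≃ₗ[MonoidAlgebra k G] Y :=
  LinearEquiv.ofBijective (mkR f.toLinearMap h) f.bijective

theorem rp_inv_mul (g : G) (x : X) : rp k G X g⁻¹ (rp k G X g x) = x := by
  rw [← Module.End.mul_apply, ← map_mul, inv_mul_cancel, map_one]; rfl

theorem rp_mul_inv (g : G) (x : X) : rp k G X g (rp k G X g⁻¹ x) = x := by
  rw [← Module.End.mul_apply, ← map_mul, mul_inv_cancel, map_one]; rfl

end basic

/-- The tensor product. -/
def TP (k : Type*) [Field k] (_G : Type*) (M : Type*) [AddCommGroup M] [Module k M]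
    (X : Type*) [AddCommGroup X] [Module k X] : Type _ := M ⊗[k] X

/-- The space of linear maps. -/
def HM (k : Type*) [Field k] (_G : Type*) (M : Type*) [AddCommGroup M] [Module k M]
    (X : Type*) [AddCommGroup X] [Module k X] : Type _ := M →ₗ[k] X

section constr

variable (M : Type*) [AddCommGroup M] [Module k M] [Module (MonoidAlgebra k G) M]
  [IsScalarTower k (MonoidAlgebra k G) M]
variable (X : Type*) [AddCommGroup X] [Module k X] [Module (MonoidAlgebra k G) X]
  [IsScalarTower k (MonoidAlgebra k G) X]
variable (Y : Type*) [AddCommGroup Y] [Module k Y] [Module (MonoidAlgebra k G) Y]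
  [IsScalarTower k (MonoidAlgebra k G) Y]


noncomputable instance : AddCommGroup (TP k G M X) := inferInstanceAs (AddCommGroup (M ⊗[k] X))

noncomputable instance : AddCommGroup (HM k G M X) := inferInstanceAs (AddCommGroup (M →ₗ[k] X))

noncomputable instance : Module k (TP k G M X) := inferInstanceAs (Module k (M ⊗[k] X))

noncomputable instance : Module k (HM k G M X) := inferInstanceAs (Module k (M →ₗ[k] X))

noncomputable instance : Module (MonoidAlgebra k G) (TP k G M X) :=
  inferInstanceAs (Module (MonoidAlgebra k G) ((rp k G M).tprod (rp k G X)).asModule)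

noncomputable instance : Module (MonoidAlgebra k G) (HM k G M X) :=
  inferInstanceAs (Module (MonoidAlgebra k G) ((rp k G M).linHom (rp k G X)).asModule)

instance : IsScalarTower k (MonoidAlgebra k G) (TP k G M X) :=
  inferInstanceAs (IsScalarTower k (MonoidAlgebra k G) ((rp k G M).tprod (rp k G X)).asModule)

instance : IsScalarTower k (MonoidAlgebra k G) (HM k G M X) :=
  inferInstanceAs (IsScalarTower k (MonoidAlgebra k G) ((rp k G M).linHom (rp k G X)).asModule)

instance [Module.Finite k M] [Module.Finite k X] : Module.Finite k (TP k G M X) :=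
  inferInstanceAs (Module.Finite k (M ⊗[k] X))

instance [Module.Finite k M] [Module.Finite k X] : Module.Finite k (HM k G M X) :=
  inferInstanceAs (Module.Finite k (M →ₗ[k] X))

/-- The tensor product, as a vector space. -/
noncomputable def tpE : TP k G M X ≃ₗ[k] M ⊗[k] X := LinearEquiv.refl k (M ⊗[k] X)

/-- The space of linear maps, as a vector space. -/
noncomputable def hmE : HM k G M X ≃ₗ[k] (M →ₗ[k] X) := LinearEquiv.refl k (M →ₗ[k] X)

variable {k G M X Y}

theorem tpE_rp (g : G) (z : TP k G M X) :
    tpE k G M X (rp k G _ g z) = TensorProduct.map (rp k G M g) (rp k G X g) (tpE k G M X z) := by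
  exact rp_asModule ((rp k G M).tprod (rp k G X)) g z

theorem hmE_rp (g : G) (z : HM k G M X) (m : M) :
    hmE k G M X (rp k G _ g z) m = rp k G X g (hmE k G M X z (rp k G M g⁻¹ m)) := by
  have := rp_asModule ((rp k G M).linHom (rp k G X)) g z
  exact LinearMap.congr_fun this m

theorem tpE_symm_rp (g : G) (z : M ⊗[k] X) :
    (tpE k G M X).symm (TensorProduct.map (rp k G M g) (rp k G X g) z) =
      rp k G _ g ((tpE k G M X).symm z) := by
  rw [LinearEquiv.symm_apply_eq, tpE_rp, LinearEquiv.apply_symm_apply]

variable (k G M X Y) in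
/-- The space of equivariant bilinear maps. -/
def Bil : Submodule k (M →ₗ[k] X →ₗ[k] Y) where
  carrier := {β | ∀ (g : G) m x, β (rp k G M g m) (rp k G X g x) = rp k G Y g (β m x)}
  add_mem' {β β'} h h' g m x := by
    simp only [LinearMap.add_apply, map_add, h g m x, h' g m x]
  zero_mem' g m x := by simp
  smul_mem' c β h g m x := by
    simp only [LinearMap.smul_apply, map_smul, h g m x]

/-- Equivariant bilinear maps are maps from the tensor product. -/
noncomputable def bilTP : (TP k G M X →ₗ[MonoidAlgebra k G] Y) ≃ₗ[k] Bil k G M X Y where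
  toFun f := ⟨(TensorProduct.mk k M X).compr₂
    ((toK k (MonoidAlgebra k G) f).comp (tpE k G M X).symm.toLinearMap), fun g m x => by
      change f ((tpE k G M X).symm (rp k G M g m ⊗ₜ rp k G X g x)) =
        rp k G Y g (f ((tpE k G M X).symm (m ⊗ₜ x)))
      rw [← map_rp, ← tpE_symm_rp, TensorProduct.map_tmul]⟩
  invFun β := mkR ((TensorProduct.lift β.1).comp (tpE k G M X).toLinearMap) fun g z => by
    obtain ⟨w, rfl⟩ := (tpE k G M X).symm.surjective z
    simp only [LinearMap.comp_apply, LinearEquiv.coe_coe, tpE_rp, LinearEquiv.apply_symm_apply]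
    induction w using TensorProduct.induction_on with
    | zero => simp
    | tmul m x => simpa using β.2 g m x
    | add a b ha hb => simp only [map_add, ha, hb]
  map_add' f f' := rfl
  map_smul' c f := rfl
  left_inv f := by
    ext z
    obtain ⟨w, rfl⟩ := (tpE k G M X).symm.surjective z
    rw [mkR_apply]
    simp only [LinearMap.comp_apply, LinearEquiv.coe_coe, LinearEquiv.apply_symm_apply]
    induction w using TensorProduct.induction_on with
    | zero => simp
    | tmul m x => rfl
    | add a b ha hb => simp only [map_add, ha, hb]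
  right_inv β := by
    ext m x
    change TensorProduct.lift β.1 (tpE k G M X ((tpE k G M X).symm (m ⊗ₜ x))) = β.1 m x
    rw [LinearEquiv.apply_symm_apply]
    simp

/-- Equivariant bilinear maps are maps to the space of linear maps. -/
noncomputable def bilHM : (M →ₗ[MonoidAlgebra k G] HM k G X Y) ≃ₗ[k] Bil k G M X Y where
  toFun f := ⟨(hmE k G X Y).toLinearMap.comp (toK k (MonoidAlgebra k G) f), fun g m x => by
      change hmE k G X Y (f (rp k G M g m)) (rp k G X g x) = rp k G Y g (hmE k G X Y (f m) x)
      rw [map_rp, hmE_rp, rp_inv_mul]⟩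
  invFun β := mkR ((hmE k G X Y).symm.toLinearMap.comp β.1) fun g m => by
    simp only [LinearMap.comp_apply, LinearEquiv.coe_coe]
    rw [LinearEquiv.symm_apply_eq]
    ext x
    rw [hmE_rp, LinearEquiv.apply_symm_apply, ← β.2 g m, rp_mul_inv]
  map_add' f f' := by
    ext m x
    change hmE k G X Y (f m + f' m) x = _
    rw [map_add]
    rfl
  map_smul' c f := by
    ext m x
    change hmE k G X Y (c • f m) x = _
    rw [map_smul]
    rfl
  left_inv f := by
    ext m
    rw [mkR_apply]
    simp only [LinearMap.comp_apply, LinearEquiv.coe_coe]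
    exact LinearEquiv.symm_apply_apply (hmE k G X Y) (f m)
  right_inv β := by
    ext m x
    change hmE k G X Y ((hmE k G X Y).symm (β.1 m)) x = β.1 m x
    rw [LinearEquiv.apply_symm_apply]

variable (k G M X Y) in
/-- Exchange of the two variables. -/
def bilFlip : Bil k G M X Y ≃ₗ[k] Bil k G X M Y where
  toFun β := ⟨β.1.flip, fun g x m => β.2 g m x⟩
  invFun β := ⟨β.1.flip, fun g x m => β.2 g m x⟩
  map_add' β β' := by ext; rfl
  map_smul' c β := by ext; rfl
  left_inv β := by ext; rfl
  right_inv β := by ext; rfl

theorem hd_TP : hd k (MonoidAlgebra k G) (TP k G M X) Y = Module.finrank k (Bil k G M X Y) :=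
  bilTP.finrank_eq

theorem hd_HM : hd k (MonoidAlgebra k G) M (HM k G X Y) = Module.finrank k (Bil k G M X Y) :=
  bilHM.finrank_eq

theorem hd_HM' : hd k (MonoidAlgebra k G) X (HM k G M Y) = Module.finrank k (Bil k G M X Y) := by
  rw [hd_HM]
  exact (bilFlip k G X M Y).finrank_eq

theorem hd_TP_eq_hd_HM : hd k (MonoidAlgebra k G) (TP k G M X) Y =
    hd k (MonoidAlgebra k G) X (HM k G M Y) := by rw [hd_TP, hd_HM']

end constr

end Pool.Agent.V8H91.ZO
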